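import Mathlib
import Pool.Agent.Y703.CQ.Stm

/-!
# The natural density of the coranks of the Laplacians of the primes of `D`

`P` is a class of primes `≡ 1` modulo `4` of density `d`, and `q` is a prime outside of the class.
For the sets `S` of primes of the class with product at most `X` we study the corank of the reduced
Laplacian of the graph with the vertices in `S` and `q`, two of them adjacent when they are
nonresidues modulo each other (the row and the column of `q` are deleted). This is an adaptation of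
the projects CQ (helper703) and SQ (helper413) of the starting files to a general class and to all
coranks. Statements of the parts.
-/

set_option autoImplicit false
set_option linter.unusedVariables false

open scoped Classical

namespace Pool.Agent.K1H97.NA

open Finset
open Pool.Agent.Y703.CX (sm la jj XX eL zz kk S_SIE)
open Pool.Agent.Y703.CQ (nr sg prs HB S_EQ ext c2)

/-- the kernel of the reduced Laplacian -/
def Sol (q : ℕ) (S : Finset ℕ) (x : S → ZMod 2) : Prop :=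
  ∀ p : S, ∑ r : S, nr p r * (x r + x p) + nr p q * x p = 0

/-- the corank is `c` -/
def Ev (q c : ℕ) (S : Finset ℕ) : Prop := Nat.card {x : S → ZMod 2 // Sol q S x} = 2 ^ c

/-- the sets of primes of the class -/
def Cl (P : ℕ → Prop) (S : Finset ℕ) : Prop := ∀ p ∈ S, P p

/-- the sets of the class with product at most `X` -/
noncomputable def SS (P : ℕ → Prop) (X : ℕ) : Finset (Finset ℕ) :=
  (range (X + 1)).powerset.filter fun S => Cl P S ∧ ∏ p ∈ S, p ≤ X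

/-- the limit law -/
noncomputable def ac (c : ℕ) : ℝ := c2 * ∏ i ∈ range c, (1 / (2 ^ (i + 1) - 1) : ℝ)

/-- the labels of the large primes with respect to the small ones and `q` are not degenerate -/
def Nd (q : ℕ) (S₀ S₁ : Finset ℕ) : Prop :=
  ∀ w : ℕ → ZMod 2, (∃ u ∈ insert q S₀, w u ≠ 0) →
    ∃ p ∈ S₁, ∑ u ∈ insert q S₀, w u * nr p u ≠ 0

/-- the regular sets -/
noncomputable def RR (P : ℕ → Prop) (X z H k V : ℕ) : Finset (Finset ℕ) :=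
  (SS P X).filter fun S => Set.InjOn (jj H) (la z S : Set ℕ) ∧ S.card ≤ k ∧
    (∏ p ∈ sm z S, p) * ∏ p ∈ la z S, XX H (jj H p) ≤ X ∧
    (sm z S).card + V + 2 ≤ (la z S).card

/-- the sets of primes of the class on which the product of the primes in `W` is a square -/
noncomputable def HD (P : ℕ → Prop) (W : Finset ℕ) (T : ℕ) : Finset (Finset ℕ) :=
  (range (T + 1)).powerset.filter fun S => (∀ p ∈ S, P p ∧ p ∉ W ∧ ∑ u ∈ W, nr p u = 0) ∧
    ∏ p ∈ S, p ≤ T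

/-- the properties of the class and of `q` -/
structure CP (P : ℕ → Prop) (q : ℕ) (d : ℝ) : Prop where
  pr : ∀ p, P p → p.Prime ∧ p % 4 = 1
  qp : q.Prime ∧ q % 4 = 1
  nq : ¬ P q
  d0 : 0 < d
  d1 : d ≤ 1
  merU : ∃ C : ℝ, ∀ y : ℕ, 3 ≤ y →
    ∑ p ∈ (range (y + 1)).filter P, (1 : ℝ) / p ≤ d * Real.log (Real.log y) + C
  merL : ∃ C : ℝ, ∀ y : ℕ, 3 ≤ y →
    ∑ p ∈ (range (y + 1)).filter (fun p => p.Prime ∧ ¬ P p), (1 : ℝ) / p ≤
      (1 - d) * Real.log (Real.log y) + C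
  che : ∃ (c : ℝ) (Y₀ : ℕ), 0 < c ∧ ∀ Y : ℕ, Y₀ ≤ Y →
    c * Y / Real.log Y ≤ (((range (Y + 1)).filter P).card : ℝ)
  hal : ∃ C : ℝ, 1 ≤ C ∧ ∀ (W : Finset ℕ) (T : ℕ), W.Nonempty → (∀ u ∈ W, u = q ∨ P u) → 2 ≤ T →
    ∑ S ∈ HD P W T, (1 : ℝ) / ((∏ p ∈ S, p : ℕ) : ℝ) ≤
      C * (Real.log ((∏ u ∈ W, u : ℕ) : ℝ)) ^ (1 / 2 : ℝ) * (Real.log T) ^ (d / 2)

/-- bilinear sums of quadratic symbols -/
def S_BIL : Prop := ∃ C : ℝ, 1 ≤ C ∧ ∀ (P Q : Finset ℕ) (A B z : ℕ) (c d : ℕ → ℂ),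
  (∀ p ∈ P, p.Prime ∧ p % 4 = 1 ∧ p ≤ A) → (∀ q ∈ Q, q.Prime ∧ q ≠ 2 ∧ q ≤ B) →
  Disjoint P Q → 1 ≤ z → z ≤ A → z ≤ B → (∀ p, ‖c p‖ ≤ 1) → (∀ q, ‖d q‖ ≤ 1) →
  ‖∑ p ∈ P, ∑ q ∈ Q, c p * d q * sg (nr p q)‖ ^ 12 * z ≤ C * ((A : ℝ) * B) ^ 12

/-- the count in a box -/
def S_BOX : Prop := ∀ (c : ℕ) (ε : ℝ), 0 < ε → ∃ V : ℕ, ∀ (q n : ℕ)
  (C : Fin n → Finset ℕ) (X : Fin n → ℕ) (κ : ℝ) (S₀ : Finset ℕ), 0 ≤ κ →
  (∀ i, (C i).card ≤ X i) → HB univ C X κ → (q.Prime ∧ q % 4 = 1) → q ∉ S₀ →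
  (∀ u ∈ S₀, u.Prime ∧ u % 4 = 1) →
  (∀ i, ∀ p ∈ C i, (p.Prime ∧ p % 4 = 1) ∧ p ∉ S₀ ∧ p ≠ q) →
  (∀ i l, i ≠ l → Disjoint (C i) (C l)) → S₀.card + V + 2 ≤ n →
  |(((Fintype.piFinset C).filter fun p => Nd q S₀ (univ.image p) ∧
      Ev q c (S₀ ∪ univ.image p)).card : ℝ) -
      ac c * (((Fintype.piFinset C).filter fun p => Nd q S₀ (univ.image p)).card : ℝ)| ≤
    ε * (((Fintype.piFinset C).filter fun p => Nd q S₀ (univ.image p)).card : ℝ) +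
    2 ^ ((S₀.card + 1) * n + n * n) * (κ * ∏ j, (X j : ℝ))

/-- the sum over the boxes -/
def S_KEY : Prop := ∃ C : ℝ, 1 ≤ C ∧ ∀ (c : ℕ) (ε : ℝ), 0 < ε → ∃ V₀ : ℕ,
  ∀ (P : ℕ → Prop) (q : ℕ), (∀ p, P p → p.Prime ∧ p % 4 = 1) → (q.Prime ∧ q % 4 = 1) → ¬ P q →
  ∀ (X z H k V N : ℕ) (κ : ℝ), V₀ ≤ V → 1 ≤ X → 1 ≤ H → 1 ≤ z →
  0 ≤ κ → C ≤ κ ^ 12 * z → (H : ℝ) * Real.log X < N →
  |(((RR P X z H k V).filter fun S => Nd q (sm z S) (la z S) ∧ Ev q c S).card : ℝ) -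
      ac c * (((RR P X z H k V).filter fun S => Nd q (sm z S) (la z S)).card : ℝ)| ≤
    ε * ((RR P X z H k V).card : ℝ) +
    (9 * N + 9 : ℝ) ^ k * (3 ^ (3 * k ^ 2) * κ) * (X * (1 + Real.log X))

/-- the natural density of the sets with a given corank -/
def S_LAW : Prop := ∀ (P : ℕ → Prop) (q : ℕ) (d : ℝ), CP P q d → ∀ c : ℕ, Filter.Tendsto
  (fun X : ℕ => (((SS P X).filter (Ev q c)).card : ℝ) / ((SS P X).card : ℝ)) Filter.atTop
    (nhds (ac c))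

end Pool.Agent.K1H97.NA
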