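import Pool.Agent.K1H97.NA.Law
import Pool.Agent.Y356.CQ.EQ

/-!
# The count in a box
-/

set_option autoImplicit false

open scoped Classical

namespace Pool.Agent.K1H97.NA

open Function Finset
open Pool.Agent.Y759.CX (fr)
open Pool.Agent.Y703.CQ (nr sg prs HB S_EQ)
open Pool.Agent.K1H97.ST (spc)

/-- the type of the labels -/
abbrev Lb (S₀ : Finset ℕ) : Type := (S₀ → ZMod 2) × ZMod 2

/-- the label of a prime with respect to the small primes and `q` -/
noncomputable def lb (q : ℕ) (S₀ : Finset ℕ) (x : ℕ) : Lb S₀ := (fun u => nr x u, nr x q)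

/-- the good labels -/
def LN {n : ℕ} (S₀ : Finset ℕ) (β : Fin n → Lb S₀) : Prop :=
  ∀ (w : S₀ → ZMod 2) (s : ZMod 2), (∀ k, ∑ u, w u * (β k).1 u + s * (β k).2 = 0) → w = 0 ∧ s = 0

theorem nr_self (p : ℕ) : nr p p = 0 := by
  unfold nr
  rw [if_pos]
  rw [ZMod.natCast_self]
  exact ⟨0, by simp⟩

theorem nr_symm {p q : ℕ} (hp : p.Prime ∧ p % 4 = 1) (hq : q.Prime ∧ q % 4 = 1) :
    nr p q = nr q p := by
  have : Fact p.Prime := ⟨hp.1⟩
  have : Fact q.Prime := ⟨hq.1⟩
  have hp1 := hp.2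
  have hq1 := hq.2
  unfold nr
  have h := ZMod.exists_sq_eq_prime_iff_of_mod_four_eq_one (p := p) (q := q) (by omega)
    (by rintro rfl; omega)
  by_cases h1 : IsSquare (q : ZMod p)
  · rw [if_pos h1, if_pos (h.1 h1)]
  · rw [if_neg h1, if_neg (fun h2 => h1 (h.2 h2))]

section one

variable {n : ℕ} {S₀ : Finset ℕ} {q : ℕ} {p : Fin n → ℕ}

/-- extension by zero -/
noncomputable def ez0 (q : ℕ) {S₀ : Finset ℕ} (v : S₀ → ZMod 2) (s : ZMod 2) (n : ℕ) : ZMod 2 :=
  if h : n ∈ S₀ then v ⟨n, h⟩ else if n = q then s else 0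

theorem nd_iff (hq : q ∉ S₀) :
    Nd q S₀ (univ.image p) ↔ LN S₀ (fun i => lb q S₀ (p i)) := by
  have hsum : ∀ (w : ℕ → ZMod 2) (x : ℕ), ∑ u ∈ insert q S₀, w u * nr x u =
      ∑ u : S₀, w u * nr x u + w q * nr x q := by
    intro w x
    rw [sum_insert hq, ← Finset.sum_coe_sort S₀, add_comm]
  unfold Nd LN
  constructor
  · intro h w s hw
    by_contra hcon
    obtain ⟨x, hx, hx2⟩ := h (ez0 q w s) (by
      by_contra h2
      push Not at h2
      apply hcon
      refine ⟨?_, ?_⟩
      · funext u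
        have h3 := h2 u (mem_insert_of_mem u.2)
        unfold ez0 at h3
        rw [dif_pos u.2] at h3
        exact h3
      · have h3 := h2 q (mem_insert_self _ _)
        unfold ez0 at h3
        rw [dif_neg hq, if_pos rfl] at h3
        exact h3)
    rw [mem_image] at hx
    obtain ⟨i, -, rfl⟩ := hx
    apply hx2
    rw [hsum, ← hw i]
    congr 1
    · refine sum_congr rfl fun u _ => ?_
      unfold ez0
      rw [dif_pos u.2]
      rfl
    · unfold ez0
      rw [dif_neg hq, if_pos rfl]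
      rfl
  · intro h w hw
    by_contra hcon
    push Not at hcon
    obtain ⟨h1, h2⟩ := h (fun u => w u) (w q) (fun k => by
      have h3 := hcon (p k) (mem_image_of_mem _ (mem_univ _))
      rw [hsum] at h3
      exact h3)
    obtain ⟨u, hu, hwu⟩ := hw
    rw [mem_insert] at hu
    rcases hu with rfl | hu
    · exact hwu h2
    · exact hwu (congrFun h1 ⟨u, hu⟩)

theorem ext_sum (hpr : ∀ i, (p i).Prime ∧ p i % 4 = 1) (k : Fin n) (y : Fin n → ZMod 2)
    (yk : ZMod 2) :
    ∑ l, Pool.Agent.Y703.CQ.ext (fun e : prs (univ : Finset (Fin n)) =>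
      nr (p e.1.1) (p e.1.2)) k l * (y l + yk) = ∑ l, nr (p k) (p l) * (y l + yk) := by
  refine Finset.sum_congr rfl fun l _ => ?_
  congr 1
  unfold Pool.Agent.Y703.CQ.ext
  by_cases h : (k, l) ∈ prs (univ : Finset (Fin n))
  · rw [dif_pos h]
  · rw [dif_neg h]
    by_cases hlk : l = k
    · subst hlk
      rw [dif_neg (fun h' => h h'.1), nr_self]
    · have h1 : ¬ k < l := by
        intro hkl
        apply h
        unfold prs
        exact Finset.mem_filter.2 ⟨Finset.mem_univ _, mem_univ _, hlk, fun _ => hkl⟩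
      have h2 : (l, k) ∈ prs (univ : Finset (Fin n)) := by
        unfold prs
        exact Finset.mem_filter.2 ⟨Finset.mem_univ _, mem_univ _, fun h => hlk h.symm,
          fun _ => lt_of_le_of_ne (not_lt.1 h1) hlk⟩
      rw [dif_pos ⟨h2, mem_univ _⟩]
      exact nr_symm (hpr l) (hpr k)

/-- the vertices -/
noncomputable def ve (hp : Injective p) (hd : ∀ i, p i ∉ S₀) :
    S₀ ⊕ Fin n ≃ ((S₀ ∪ univ.image p : Finset ℕ) : Type) :=
  Equiv.ofBijective (Sum.elim (fun u => ⟨u, mem_union_left _ u.2⟩)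
    (fun i => ⟨p i, mem_union_right _ (mem_image_of_mem _ (mem_univ _))⟩)) (by
    constructor
    · rintro (u | i) (v | j) h
      · have h' := congrArg Subtype.val h
        exact congrArg Sum.inl (Subtype.ext h')
      · have h' : (u : ℕ) = p j := congrArg Subtype.val h
        exact absurd (h' ▸ u.2) (hd j)
      · have h' : p i = (v : ℕ) := congrArg Subtype.val h
        exact absurd (h' ▸ v.2) (hd i)
      · have h' : p i = p j := congrArg Subtype.val h
        exact congrArg Sum.inr (hp h')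
    · rintro ⟨x, hx⟩
      rcases mem_union.1 hx with h | h
      · exact ⟨Sum.inl ⟨x, h⟩, rfl⟩
      · obtain ⟨i, -, rfl⟩ := mem_image.1 h
        exact ⟨Sum.inr i, rfl⟩)

theorem ev_iff (hp : Injective p) (hpr : ∀ i, (p i).Prime ∧ p i % 4 = 1)
    (hd : ∀ i, p i ∉ S₀) (hS : ∀ u ∈ S₀, u.Prime ∧ u % 4 = 1) (c : ℕ) :
    Ev q c (S₀ ∪ univ.image p) ↔ Nat.card {w : (S₀ → ZMod 2) × (Fin n → ZMod 2) //
      (∀ u, ∑ v, nr (u : S₀) (v : S₀) * (w.1 v + w.1 u) +
        ∑ l, nr (p l) u * (w.2 l + w.1 u) + nr u q * w.1 u = 0) ∧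
      ∀ k, ∑ u, nr (p k) (u : S₀) * (w.1 u + w.2 k) +
        ∑ l, Pool.Agent.Y703.CQ.ext (fun e : prs (univ : Finset (Fin n)) =>
          nr (p e.1.1) (p e.1.2)) k l * (w.2 l + w.2 k) + nr (p k) q * w.2 k = 0} = 2 ^ c := by
  have hsum : ∀ h : ((S₀ ∪ univ.image p : Finset ℕ) : Type) → ZMod 2,
      ∑ r, h r = ∑ u, h (ve hp hd (Sum.inl u)) + ∑ l, h (ve hp hd (Sum.inr l)) := by
    intro h
    rw [← (ve hp hd).sum_comp, Fintype.sum_sum_type]
  have e1 : ∀ u : S₀, ((ve hp hd (Sum.inl u) : ((S₀ ∪ univ.image p : Finset ℕ) : Type)) : ℕ) = u :=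
    fun _ => rfl
  have e2 : ∀ i, ((ve hp hd (Sum.inr i) : ((S₀ ∪ univ.image p : Finset ℕ) : Type)) : ℕ) = p i :=
    fun _ => rfl
  unfold Ev
  have hE : Nat.card {x : ((S₀ ∪ univ.image p : Finset ℕ) : Type) → ZMod 2 //
      Sol q (S₀ ∪ univ.image p) x} = Nat.card {w : (S₀ → ZMod 2) × (Fin n → ZMod 2) //
      (∀ u, ∑ v, nr (u : S₀) (v : S₀) * (w.1 v + w.1 u) +
        ∑ l, nr (p l) u * (w.2 l + w.1 u) + nr u q * w.1 u = 0) ∧
      ∀ k, ∑ u, nr (p k) (u : S₀) * (w.1 u + w.2 k) +
        ∑ l, Pool.Agent.Y703.CQ.ext (fun e : prs (univ : Finset (Fin n)) =>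
          nr (p e.1.1) (p e.1.2)) k l * (w.2 l + w.2 k) + nr (p k) q * w.2 k = 0} := by
    refine Nat.card_congr (Equiv.subtypeEquiv
      (((ve hp hd).symm.arrowCongr (Equiv.refl (ZMod 2))).trans
        (Equiv.sumArrowEquivProdArrow S₀ (Fin n) (ZMod 2))) fun x => ?_)
    unfold Sol
    have h1 : ∀ u : S₀, ((((ve hp hd).symm.arrowCongr (Equiv.refl (ZMod 2))).trans
        (Equiv.sumArrowEquivProdArrow S₀ (Fin n) (ZMod 2))) x).1 u =
        x (ve hp hd (Sum.inl u)) := fun _ => rfl
    have h2 : ∀ i, ((((ve hp hd).symm.arrowCongr (Equiv.refl (ZMod 2))).trans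
        (Equiv.sumArrowEquivProdArrow S₀ (Fin n) (ZMod 2))) x).2 i =
        x (ve hp hd (Sum.inr i)) := fun _ => rfl
    simp only [h1, h2]
    rw [← (ve hp hd).forall_congr_right, Sum.forall]
    refine and_congr (forall_congr' fun u => ?_) (forall_congr' fun k => ?_)
    · rw [hsum]
      simp only [e1, e2]
      have h3 : ∀ l, nr (u : ℕ) (p l) = nr (p l) u := fun l => nr_symm (hS u u.2) (hpr l)
      simp only [h3]
    · rw [hsum]
      simp only [e1, e2]
      rw [ext_sum hpr k (fun l => x (ve hp hd (Sum.inr l)))]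
  rw [hE]

end one

theorem HB_sub {ι : Type} {J1 : Finset ι} {C : ι → Finset ℕ} {X : ι → ℕ} {κ : ℝ}
    (h : HB J1 C X κ) (P : ι → ℕ → Prop) [∀ i, DecidablePred (P i)] :
    HB J1 (fun i => (C i).filter (P i)) X κ := by
  intro i l hil hi c d hc hd
  have h1 := h i l hil hi (fun x => if P i x then c x else 0) (fun y => if P l y then d y else 0)
    (fun x => by
      split_ifs
      · exact hc x
      · simp) (fun y => by
      split_ifs
      · exact hd y
      · simp)
  refine (le_of_eq ?_).trans h1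
  congr 1
  rw [Finset.sum_filter]
  refine Finset.sum_congr rfl fun x _ => ?_
  by_cases hx : P i x
  · rw [if_pos hx, Finset.sum_filter]
    refine Finset.sum_congr rfl fun y _ => ?_
    by_cases hy : P l y
    · rw [if_pos hy, if_pos hx, if_pos hy]
    · rw [if_neg hy, if_neg hy, mul_zero, zero_mul]
  · rw [if_neg hx]
    symm
    refine Finset.sum_eq_zero fun y _ => ?_
    rw [if_neg hx, zero_mul, zero_mul]

theorem prs_le (n : ℕ) : (prs (univ : Finset (Fin n))).card ≤ n * n := by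
  unfold prs
  refine (Finset.card_filter_le _ _).trans ?_
  rw [Finset.card_univ, Fintype.card_prod, Fintype.card_fin]

/-- **The count in a box.** -/
theorem t_BOX : S_BOX := by
  intro c ε hε
  obtain ⟨V, hV⟩ := spc_lim c ε hε
  refine ⟨V, ?_⟩
  intro q n C X κ S₀ hκ hCX hHB hq hqS hS₀ hC hdis hn
  obtain ⟨m, hm⟩ : ∃ m, n = m + 1 := ⟨n - 1, by omega⟩
  set R : ℝ := 2 ^ (prs (univ : Finset (Fin n))).card * (κ * ∏ j, (X j : ℝ)) with hR
  have hR0 : 0 ≤ R := mul_nonneg (by positivity)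
    (mul_nonneg hκ (Finset.prod_nonneg fun j _ => by positivity))
  -- facts on tuples
  have hinj : ∀ p ∈ Fintype.piFinset C, Function.Injective p := by
    intro p hp i j hij
    rw [Fintype.mem_piFinset] at hp
    by_contra hne
    have h1 := Finset.disjoint_left.1 (hdis i j hne) (hp i)
    rw [hij] at h1
    exact h1 (hp j)
  have hd : ∀ p ∈ Fintype.piFinset C, ∀ i, p i ∉ S₀ := by
    intro p hp i
    rw [Fintype.mem_piFinset] at hp
    exact (hC i _ (hp i)).2.1
  have hpr : ∀ p ∈ Fintype.piFinset C, ∀ i, (p i).Prime ∧ p i % 4 = 1 := by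
    intro p hp i
    rw [Fintype.mem_piFinset] at hp
    exact (hC i _ (hp i)).1
  -- the part with given labels
  have h1 : ∀ β : Fin n → Lb S₀, LN S₀ β →
      |(((Fintype.piFinset C).filter fun p => (fun i => lb q S₀ (p i)) = β ∧
          Ev q c (S₀ ∪ univ.image p)).card : ℝ) -
        ac c * (((Fintype.piFinset C).filter fun p => (fun i => lb q S₀ (p i)) = β).card : ℝ)| ≤
      ε * (((Fintype.piFinset C).filter fun p => (fun i => lb q S₀ (p i)) = β).card : ℝ) + R := by
    intro β hβ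
    set C' : Fin n → Finset ℕ := fun i => (C i).filter fun x => lb q S₀ x = β i with hC'
    have hpi : (Fintype.piFinset C).filter (fun p => (fun i => lb q S₀ (p i)) = β) =
        Fintype.piFinset C' := by
      ext p
      simp only [Finset.mem_filter, Fintype.mem_piFinset, hC']
      constructor
      · rintro ⟨h2, h3⟩ i
        exact ⟨h2 i, congrFun h3 i⟩
      · intro h2
        exact ⟨fun i => (h2 i).1, funext fun i => (h2 i).2⟩
    set Q : (prs (univ : Finset (Fin n)) → ZMod 2) → Prop := fun α =>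
      Nat.card {w : (S₀ → ZMod 2) × (Fin n → ZMod 2) //
      (∀ u, ∑ v, nr (u : S₀) (v : S₀) * (w.1 v + w.1 u) +
        ∑ l, (β l).1 u * (w.2 l + w.1 u) + nr u q * w.1 u = 0) ∧
      ∀ k, ∑ u, (β k).1 u * (w.1 u + w.2 k) +
        ∑ l, Pool.Agent.Y703.CQ.ext α k l * (w.2 l + w.2 k) + (β k).2 * w.2 k = 0} = 2 ^ c with hQ
    have h2 : |((univ.filter Q).card : ℝ) / 2 ^ (prs (univ : Finset (Fin n))).card - ac c| ≤ ε := by
      subst hm
      obtain ⟨d, hd, hlaw⟩ := law1 (fun u v : S₀ => nr u v) (fun k (u : S₀) => (β k).1 u)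
        (fun u : S₀ => nr u q) (fun k => (β k).2)
        (fun u v => nr_symm (hS₀ u u.2) (hS₀ v v.2)) hβ
      have h3 := hV d (by
        rw [Fintype.card_coe] at hd
        omega)
      rw [← hlaw c] at h3
      have h4 : fr (fun α : prs (univ : Finset (Fin (m + 1))) → ZMod 2 =>
          Nat.card {w // Rows (fun u v : S₀ => nr u v) (fun k (u : S₀) => (β k).1 u)
            (fun u : S₀ => nr u q) (fun k => (β k).2) (Pool.Agent.Y703.CQ.ext α) w} = 2 ^ c) =
          ((univ.filter Q).card : ℝ) / 2 ^ (prs (univ : Finset (Fin (m + 1)))).card := by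
        unfold fr
        have h5 : Nat.card (prs (univ : Finset (Fin (m + 1))) → ZMod 2) =
            2 ^ (prs (univ : Finset (Fin (m + 1)))).card := by
          rw [Nat.card_eq_fintype_card, Fintype.card_fun, ZMod.card, Fintype.card_coe]
        have h6 : Nat.card {α : prs (univ : Finset (Fin (m + 1))) → ZMod 2 //
            Nat.card {w // Rows (fun u v : S₀ => nr u v) (fun k (u : S₀) => (β k).1 u)
            (fun u : S₀ => nr u q) (fun k => (β k).2) (Pool.Agent.Y703.CQ.ext α) w} = 2 ^ c} =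
            (univ.filter Q).card := by
          rw [Nat.card_eq_fintype_card, Fintype.card_subtype]
          rfl
        rw [h5, h6]
        push_cast
        rfl
      rw [h4] at h3
      exact h3
    have h3 := Pool.Agent.Y356.CQ.t_EQ (Fin n) univ C' X κ hκ
      (fun i => (Finset.card_le_card (Finset.filter_subset _ _)).trans (hCX i))
      (HB_sub hHB fun i x => lb q S₀ x = β i) Q
    have h4 : ((Fintype.piFinset C).filter fun p => (fun i => lb q S₀ (p i)) = β ∧
        Ev q c (S₀ ∪ univ.image p)) = ((Fintype.piFinset C').filter fun p =>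
          Q fun e => nr (p e.1.1) (p e.1.2)) := by
      rw [← hpi, Finset.filter_filter]
      refine Finset.filter_congr fun p hp => ?_
      refine and_congr_right fun hl => ?_
      rw [ev_iff (hinj p hp) (hpr p hp) (hd p hp) hS₀ c]
      subst hl
      exact Iff.rfl
    have h5 : (((Fintype.piFinset C').card : ℕ) : ℝ) = ∏ j, ((C' j).card : ℝ) := by
      rw [Fintype.card_piFinset]
      push_cast
      rfl
    rw [h4, hpi, h5]
    set N : ℝ := (((Fintype.piFinset C').filter fun p =>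
          Q fun e => nr (p e.1.1) (p e.1.2)).card : ℝ) with hN
    set r : ℝ := ((univ.filter Q).card : ℝ) / 2 ^ (prs (univ : Finset (Fin n))).card with hr
    set P : ℝ := ∏ j, ((C' j).card : ℝ) with hP
    have hP0 : 0 ≤ P := Finset.prod_nonneg fun j _ => by positivity
    have h6 : |N - ac c * P| ≤ |N - r * P| + |r - ac c| * P := by
      have h7 : N - ac c * P = (N - r * P) + (r - ac c) * P := by ring
      have h8 : |(r - ac c) * P| = |r - ac c| * P := by rw [abs_mul, abs_of_nonneg hP0]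
      rw [h7, ← h8]
      exact abs_add_le _ _
    have h7 : |r - ac c| * P ≤ ε * P := mul_le_mul_of_nonneg_right h2 hP0
    have h8 : |N - r * P| ≤ R := by convert h3
    linarith
  -- sum over the labels
  set LL := univ.filter (fun β : Fin n → Lb S₀ => LN S₀ β) with hLL
  have hfib : ∀ T : (Fin n → ℕ) → Prop,
      (((Fintype.piFinset C).filter fun p => Nd q S₀ (univ.image p) ∧ T p).card : ℝ) =
      ∑ β ∈ LL, (((Fintype.piFinset C).filter fun p =>
        (fun i => lb q S₀ (p i)) = β ∧ T p).card : ℝ) := by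
    intro T
    rw [Finset.card_eq_sum_card_fiberwise (f := fun (p : Fin n → ℕ) (i : Fin n) => lb q S₀ (p i))
      (t := LL) (by
        intro p hp
        rw [Finset.mem_coe, Finset.mem_filter] at hp
        rw [Finset.mem_coe, hLL, Finset.mem_filter]
        exact ⟨Finset.mem_univ _, (nd_iff hqS).1 hp.2.1⟩)]
    push_cast
    refine Finset.sum_congr rfl fun β hβ => ?_
    rw [hLL, Finset.mem_filter] at hβ
    congr 2
    ext p
    simp only [Finset.mem_filter]
    constructor
    · rintro ⟨⟨h3, h4, h4'⟩, h5⟩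
      exact ⟨h3, h5, h4'⟩
    · rintro ⟨h3, h4, h5⟩
      refine ⟨⟨h3, ?_, h5⟩, h4⟩
      rw [nd_iff hqS, h4]
      exact hβ.2
  have hf1 := hfib fun p => Ev q c (S₀ ∪ univ.image p)
  have hf2 := hfib fun _ => True
  simp only [and_true] at hf2
  rw [hf1, hf2, Finset.mul_sum, ← Finset.sum_sub_distrib]
  refine (Finset.abs_sum_le_sum_abs _ _).trans ?_
  refine (Finset.sum_le_sum fun β hβ => h1 β (Finset.mem_filter.1 hβ).2).trans ?_
  rw [Finset.sum_add_distrib, ← Finset.mul_sum, Finset.sum_const, nsmul_eq_mul]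
  have h5 : ((LL.card : ℕ) : ℝ) ≤ 2 ^ ((S₀.card + 1) * n) := by
    have h6 : LL.card ≤ Fintype.card (Fin n → Lb S₀) := Finset.card_le_univ _
    rw [Fintype.card_fun, Fintype.card_prod, Fintype.card_fun, ZMod.card,
      Fintype.card_coe, ← pow_succ, ← pow_mul, Fintype.card_fin] at h6
    exact_mod_cast h6
  have hκX : 0 ≤ κ * ∏ j, (X j : ℝ) := mul_nonneg hκ (Finset.prod_nonneg fun j _ => by positivity)
  have h6 := mul_le_mul_of_nonneg_right h5 hR0
  have h7 : (2 : ℝ) ^ (prs (univ : Finset (Fin n))).card ≤ 2 ^ (n * n) :=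
    pow_le_pow_right₀ (by norm_num) (prs_le n)
  have h8 : (2 : ℝ) ^ ((S₀.card + 1) * n) * R ≤
      2 ^ ((S₀.card + 1) * n + n * n) * (κ * ∏ j, (X j : ℝ)) := by
    rw [hR, pow_add, mul_assoc]
    gcongr
  linarith

end Pool.Agent.K1H97.NA
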