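import Pool.Agent.K1H97.NA.Hal2
import Pool.Agent.Y405.CQ.MER
import Pool.Agent.Y37.CX.An
import Pool.Agent.TH423.SH.PAIP

/-!
# The class of the primes `≡ 1` modulo `M`
-/

set_option autoImplicit false

open scoped Classical

namespace Pool.Agent.K1H97.NA

open Finset
open Pool.Agent.Y37.CX (Pm Pm_le)

/-- the primes `≡ 1` modulo `M` different from `q` -/
def PM (M q : ℕ) (p : ℕ) : Prop := p.Prime ∧ p ≡ 1 [MOD M] ∧ p ≠ q

theorem che_PM (M q : ℕ) (hM4 : 4 ∣ M) (hM0 : M ≠ 0) :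
    ∃ (c : ℝ) (Y₀ : ℕ), 0 < c ∧ ∀ Y : ℕ, Y₀ ≤ Y →
    c * Y / Real.log Y ≤ (((range (Y + 1)).filter (PM M q)).card : ℝ) := by
  have hM1 : 1 ≤ M := Nat.one_le_iff_ne_zero.2 hM0
  obtain ⟨x₀, hx₀⟩ := Pool.Agent.TH423.SH.pai M hM1 (1 / 2) (1 / 4) (by norm_num)
    (by norm_num)
  have hφ : (0 : ℝ) < (M.totient : ℝ) := by
    exact_mod_cast Nat.totient_pos.2 (Nat.pos_of_ne_zero hM0)
  refine ⟨1 / (8 * M.totient), max (max 4 (2 * q)) ⌈x₀⌉₊, by positivity, ?_⟩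
  intro Y hY
  have hY4 : 4 ≤ Y := le_trans (le_trans (le_max_left _ _) (le_max_left _ _)) hY
  have hYq : 2 * q ≤ Y := le_trans (le_trans (le_max_right _ _) (le_max_left _ _)) hY
  have hYx : x₀ ≤ (Y : ℝ) := (Nat.le_ceil x₀).trans (by exact_mod_cast (le_max_right _ _).trans hY)
  have hY4' : (4 : ℝ) ≤ Y := by exact_mod_cast hY4
  have hdiv1 : ((Y / 2 : ℕ) : ℝ) ≤ (Y : ℝ) / 2 := Nat.cast_div_le
  have hdiv2 : (Y : ℝ) / 2 ≤ ((Y / 2 + 1 : ℕ) : ℝ) := by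
    have : Y < 2 * (Y / 2 + 1) := by omega
    have : (Y : ℝ) < 2 * ((Y / 2 + 1 : ℕ) : ℝ) := by exact_mod_cast this
    linarith
  have hlog : 0 < Real.log Y := Real.log_pos (by linarith)
  have h := hx₀ Y hYx (Y / 2 + 1) Y 1 hdiv2 (by linarith)
    (by push_cast; linarith) (Nat.coprime_one_left M)
  have h1 := (abs_le.mp h).1
  have hsub : (Ioc (Y / 2 + 1) Y).filter (fun r => r.Prime ∧ r % M = 1 % M) ⊆
      (range (Y + 1)).filter (PM M q) := by
    intro r hr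
    rw [mem_filter, mem_Ioc] at hr
    rw [mem_filter, mem_range]
    refine ⟨by omega, hr.2.1, hr.2.2, ?_⟩
    rintro rfl
    omega
  have hcard : (((Ioc (Y / 2 + 1) Y).filter (fun r => r.Prime ∧ r % M = 1 % M)).card : ℝ) ≤
      (((range (Y + 1)).filter (PM M q)).card : ℝ) := by
    exact_mod_cast Finset.card_le_card hsub
  refine le_trans ?_ hcard
  have h2 : (1 / 2 : ℝ) * (((Y : ℝ) - ((Y / 2 + 1 : ℕ) : ℝ)) / ((M.totient : ℝ) * Real.log Y)) ≤
      (((Ioc (Y / 2 + 1) Y).filter (fun r => r.Prime ∧ r % M = 1 % M)).card : ℝ) := by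
    linarith
  refine le_trans ?_ h2
  have h3 : (Y : ℝ) / 4 ≤ (Y : ℝ) - ((Y / 2 + 1 : ℕ) : ℝ) := by push_cast; linarith
  have h4 : (Y : ℝ) / 4 / ((M.totient : ℝ) * Real.log Y) ≤
      ((Y : ℝ) - ((Y / 2 + 1 : ℕ) : ℝ)) / ((M.totient : ℝ) * Real.log Y) := by
    apply div_le_div_of_nonneg_right h3
    positivity
  calc 1 / (8 * (M.totient : ℝ)) * Y / Real.log Y =
      1 / 2 * ((Y : ℝ) / 4 / ((M.totient : ℝ) * Real.log Y)) := by
        field_simp
        ring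
    _ ≤ _ := by linarith

theorem mer_up (M q : ℕ) (hM4 : 4 ∣ M) (hM0 : M ≠ 0) : ∃ C : ℝ, ∀ y : ℕ, 3 ≤ y →
    ∑ p ∈ (range (y + 1)).filter (PM M q), (1 : ℝ) / p ≤
      (1 / (M.totient : ℝ)) * Real.log (Real.log y) + C := by
  have hM3 : 1 < M := by
    have := Nat.le_of_dvd (Nat.pos_of_ne_zero hM0) hM4
    omega
  obtain ⟨C, hC0, hC⟩ := Pool.Agent.Y405.CQ.mertens_ap M hM3.le 1 hM3 (Nat.coprime_one_left M)
  refine ⟨C, fun y hy => ?_⟩
  have h1 := (abs_le.1 (hC y hy)).2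
  have h2 : ∑ p ∈ (range (y + 1)).filter (PM M q), (1 : ℝ) / p ≤
      ∑ p ∈ (Icc 1 y).filter (fun p => p.Prime ∧ p % M = 1), (1 : ℝ) / p := by
    refine sum_le_sum_of_subset_of_nonneg ?_ fun _ _ _ => by positivity
    intro p hp
    rw [mem_filter, mem_range] at hp
    obtain ⟨h3, h4, h5, -⟩ := hp
    rw [mem_filter, mem_Icc]
    refine ⟨⟨h4.pos, by omega⟩, h4, ?_⟩
    have h6 : p % M = 1 % M := h5
    rw [h6, Nat.mod_eq_of_lt hM3]
  linarith

theorem mer_lo (M q : ℕ) (hM4 : 4 ∣ M) (hM0 : M ≠ 0) : ∃ C : ℝ, ∀ y : ℕ, 3 ≤ y →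
    ∑ p ∈ (range (y + 1)).filter (fun p => p.Prime ∧ ¬ PM M q p), (1 : ℝ) / p ≤
      (1 - 1 / (M.totient : ℝ)) * Real.log (Real.log y) + C := by
  have hM3 : 1 < M := by
    have := Nat.le_of_dvd (Nat.pos_of_ne_zero hM0) hM4
    omega
  obtain ⟨C, hC0, hC⟩ := Pool.Agent.Y405.CQ.mertens_ap M hM3.le 1 hM3 (Nat.coprime_one_left M)
  obtain ⟨C', hC'0, hC'⟩ := Pm_le
  refine ⟨C + C' + 1 / q, fun y hy => ?_⟩
  have h1 := (abs_le.1 (hC y hy)).1
  have h2 := hC' y hy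
  have h3 : ∑ p ∈ (range (y + 1)).filter (fun p => p.Prime ∧ ¬ PM M q p), (1 : ℝ) / p +
      ∑ p ∈ (Icc 1 y).filter (fun p => p.Prime ∧ p % M = 1), (1 : ℝ) / p ≤
      Pm y + 1 / q := by
    have e1 : (range (y + 1)).filter (fun p => p.Prime ∧ ¬ PM M q p) ⊆
        ((Icc 1 y).filter Nat.Prime).filter (fun p => ¬ p % M = 1) ∪ {q} := by
      intro p hp
      rw [mem_filter, mem_range] at hp
      obtain ⟨a1, a2, a3⟩ := hp
      rw [mem_union, mem_filter, mem_filter, mem_Icc, mem_singleton]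
      by_cases hpq : p = q
      · exact Or.inr hpq
      · left
        refine ⟨⟨⟨a2.pos, by omega⟩, a2⟩, fun h => a3 ⟨a2, ?_, hpq⟩⟩
        show p % M = 1 % M
        rw [h, Nat.mod_eq_of_lt hM3]
    have e2 : ∑ p ∈ (range (y + 1)).filter (fun p => p.Prime ∧ ¬ PM M q p), (1 : ℝ) / p ≤
        ∑ p ∈ ((Icc 1 y).filter Nat.Prime).filter (fun p => ¬ p % M = 1), (1 : ℝ) / p +
          1 / q := by
      refine (sum_le_sum_of_subset_of_nonneg e1 fun _ _ _ => by positivity).trans ?_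
      have e3 := sum_union_inter (s₁ := ((Icc 1 y).filter Nat.Prime).filter
        (fun p => ¬ p % M = 1)) (s₂ := {q}) (f := fun p : ℕ => (1 : ℝ) / p)
      rw [sum_singleton] at e3
      have e4 : 0 ≤ ∑ p ∈ ((Icc 1 y).filter Nat.Prime).filter (fun p => ¬ p % M = 1) ∩ {q},
          (1 : ℝ) / p := sum_nonneg fun _ _ => by positivity
      linarith
    have e5 : ∑ p ∈ (Icc 1 y).filter (fun p => p.Prime ∧ p % M = 1), (1 : ℝ) / p =
        ∑ p ∈ ((Icc 1 y).filter Nat.Prime).filter (fun p => p % M = 1), (1 : ℝ) / p := by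
      rw [filter_filter]
    have e6 := sum_filter_add_sum_filter_not ((Icc 1 y).filter Nat.Prime) (fun p => p % M = 1)
      (fun p : ℕ => (1 : ℝ) / p)
    unfold Pm
    linarith
  have h4 : (1 - 1 / (M.totient : ℝ)) * Real.log (Real.log y) =
      Real.log (Real.log y) - 1 / (M.totient : ℝ) * Real.log (Real.log y) := by ring
  rw [h4]
  linarith

/-- **the class of the primes `≡ 1` modulo `M` satisfies the conditions** -/
theorem inst (M q : ℕ) (hM4 : 4 ∣ M) (hM0 : M ≠ 0) (hq : q.Prime ∧ q % 4 = 1)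
    (hqM : Nat.Coprime q M) : CP (PM M q) q (1 / (M.totient : ℝ)) where
  pr := by
    intro p hp
    refine ⟨hp.1, ?_⟩
    have : p % 4 = 1 % 4 := hp.2.1.of_dvd hM4
    omega
  qp := hq
  nq := fun h => h.2.2 rfl
  d0 := by
    have : (0 : ℝ) < (M.totient : ℝ) := by
      exact_mod_cast Nat.totient_pos.2 (Nat.pos_of_ne_zero hM0)
    positivity
  d1 := by
    have : (1 : ℝ) ≤ (M.totient : ℝ) := by
      exact_mod_cast Nat.totient_pos.2 (Nat.pos_of_ne_zero hM0)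
    rw [div_le_one (by linarith)]
    exact this
  merU := mer_up M q hM4 hM0
  merL := mer_lo M q hM4 hM0
  che := che_PM M q hM4 hM0
  hal := HAL.hal_main M q hM4 hM0 hq hqM (PM M q) fun p hp => ⟨hp.1, hp.2.1⟩

end Pool.Agent.K1H97.NA
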