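import Pool.Agent.K1H97.NA.Asy
import Pool.Agent.K1H97.NA.Inst
import Pool.Agent.K1H97.ST.Card

/-!
# The law in terms of the numbers `D` and of the ranks of the Laplacians
-/

set_option autoImplicit false

open scoped Classical

namespace Pool.Agent.K1H97.NA

open Finset
open Pool.Agent.Y703.CQ (nr)
open Pool.Agent.K1H97.ST (Lap Ker ker_card)

/-- the corank -/
theorem ev_rank {q c n : ℕ} {S : Finset ℕ} (e : Fin n ≃ S) :
    Ev q c S ↔ n - (Lap q fun j => (e j : ℕ)).rank = c := by
  have h1 : Nat.card {x : S → ZMod 2 // Sol q S x} = (Ker q fun j => (e j : ℕ)).ncard := by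
    rw [← Nat.card_coe_set_eq]
    refine Nat.card_congr ⟨fun x => ⟨fun j => x.1 (e j), ?_⟩,
      fun w => ⟨fun p => w.1 (e.symm p), ?_⟩, ?_, ?_⟩
    · intro j
      have h2 := x.2 (e j)
      have h3 : ∑ k, nr (e j) (e k) * (x.1 (e k) + x.1 (e j)) =
          ∑ r : S, nr (e j) r * (x.1 r + x.1 (e j)) :=
        Equiv.sum_comp e fun r : S => nr (e j) r * (x.1 r + x.1 (e j))
      change nr (e j) q * x.1 (e j) + ∑ k, nr (e j) (e k) * (x.1 (e k) + x.1 (e j)) = 0
      rw [h3, add_comm]
      exact h2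
    · intro p
      have h2 := w.2 (e.symm p)
      simp only [Equiv.apply_symm_apply] at h2
      have h3 : ∑ k, nr (p : ℕ) (e k) * (w.1 k + w.1 (e.symm p)) =
          ∑ r : S, nr p r * (w.1 (e.symm r) + w.1 (e.symm p)) := by
        rw [← Equiv.sum_comp e fun r : S => nr p r * (w.1 (e.symm r) + w.1 (e.symm p))]
        refine sum_congr rfl fun k _ => ?_
        rw [Equiv.symm_apply_apply]
      rw [h3, add_comm] at h2
      exact h2
    · intro x
      apply Subtype.ext
      funext p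
      show x.1 (e (e.symm p)) = x.1 p
      rw [Equiv.apply_symm_apply]
    · intro w
      apply Subtype.ext
      funext j
      show w.1 (e.symm (e j)) = w.1 j
      rw [Equiv.symm_apply_apply]
  unfold Ev
  rw [h1, ker_card]
  constructor
  · intro h
    exact Nat.pow_right_injective (le_refl 2) h
  · intro h
    rw [h]

theorem card_eq {P : ℕ → Prop} (hP : ∀ p, P p → p.Prime) (X : ℕ) (Q : Finset ℕ → Prop) :
    ((Icc 1 X).filter fun D => (Squarefree D ∧ Cl P D.primeFactors) ∧ Q D.primeFactors).card =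
      ((SS P X).filter Q).card := by
  refine Finset.card_bij (fun D _ => D.primeFactors) ?_ ?_ ?_
  · intro D hD
    obtain ⟨h1, ⟨h2, hcl⟩, h4⟩ := Finset.mem_filter.1 hD
    obtain ⟨h5, h6⟩ := Finset.mem_Icc.1 h1
    refine Finset.mem_filter.2 ⟨Finset.mem_filter.2 ⟨?_, hcl, ?_⟩, h4⟩
    · rw [Finset.mem_powerset]
      intro p hp
      have := Nat.le_of_dvd (by omega) (Nat.dvd_of_mem_primeFactors hp)
      exact Finset.mem_range.2 (by omega)
    · rw [Nat.prod_primeFactors_of_squarefree h2]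
      exact h6
  · intro D hD E hE h
    have h2 := (Finset.mem_filter.1 hD).2.1.1
    have h3 := (Finset.mem_filter.1 hE).2.1.1
    have h' : D.primeFactors = E.primeFactors := h
    rw [← Nat.prod_primeFactors_of_squarefree h2, ← Nat.prod_primeFactors_of_squarefree h3, h']
  · intro S hS
    obtain ⟨h1, h2⟩ := Finset.mem_filter.1 hS
    obtain ⟨h3, h4, h5⟩ := Finset.mem_filter.1 h1
    have hpr : ∀ p ∈ S, p.Prime := fun p hp => hP p (h4 p hp)
    have hpf : (∏ p ∈ S, p).primeFactors = S := Nat.primeFactors_prod hpr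
    have hsq : Squarefree (∏ p ∈ S, p) := by
      refine Finset.squarefree_prod_of_pairwise_isCoprime (fun p hp q hq hpq => ?_)
        fun p hp => (hpr p hp).squarefree
      show IsRelPrime p q
      rw [← Nat.coprime_iff_isRelPrime]
      exact (Nat.coprime_primes (hpr p hp) (hpr q hq)).mpr hpq
    refine ⟨∏ p ∈ S, p, ?_, hpf⟩
    have hcl : Cl P (∏ p ∈ S, p).primeFactors := by rw [hpf]; exact h4
    refine Finset.mem_filter.2 ⟨Finset.mem_Icc.2 ⟨?_, h5⟩, ⟨hsq, hcl⟩, ?_⟩
    · exact Nat.one_le_iff_ne_zero.2 hsq.ne_zero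
    · rw [hpf]
      exact h2

theorem card_eq' {P : ℕ → Prop} (hP : ∀ p, P p → p.Prime) (X : ℕ) :
    ((Icc 1 X).filter fun D => Squarefree D ∧ Cl P D.primeFactors).card = (SS P X).card := by
  have e := card_eq hP X fun _ => True
  refine Eq.trans ?_ (e.trans ?_)
  · congr 1
    ext D
    simp only [Finset.mem_filter, and_true]
  · congr 1
    ext S
    simp only [Finset.mem_filter, and_true]

/-- **the law** -/
theorem law_D {P : ℕ → Prop} {q : ℕ} {d : ℝ} (h : CP P q d) (c : ℕ) : Filter.Tendsto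
    (fun X : ℕ => (((Icc 1 X).filter fun D =>
        (Squarefree D ∧ Cl P D.primeFactors) ∧ Ev q c D.primeFactors).card : ℝ) /
      (((Icc 1 X).filter fun D => Squarefree D ∧ Cl P D.primeFactors).card : ℝ)) Filter.atTop
    (nhds (ac c)) := by
  have hP : ∀ p, P p → p.Prime := fun p hp => (h.pr p hp).1
  refine (t_LAW P q d h c).congr fun X => ?_
  rw [card_eq hP X (Ev q c), card_eq' hP X]

/-- **the size of the class** -/
theorem size_D {P : ℕ → Prop} {q : ℕ} {d : ℝ} (h : CP P q d) :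
    ∃ (a : ℝ) (X₀ : ℕ), 0 < a ∧ ∀ X : ℕ, X₀ ≤ X → a * X * (Real.log X) ^ (-1 + d : ℝ) ≤
      (((Icc 1 X).filter fun D => Squarefree D ∧ Cl P D.primeFactors).card : ℝ) := by
  have hP : ∀ p, P p → p.Prime := fun p hp => (h.pr p hp).1
  obtain ⟨a, X₀, ha, hX⟩ := LOW.t_LOW h
  refine ⟨a, X₀, ha, fun X hX0 => ?_⟩
  rw [card_eq' hP X]
  exact hX X hX0

end Pool.Agent.K1H97.NA
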