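import Pool.Agent.K1H97.NA.Stm
import Pool.Agent.Y475.CQ.HalA

/-!
# The logarithmic density of a residue class with a quadratic condition

The primes `≡ 1` modulo `M` for which a given quadratic character is one, with the Euler products
of all the Dirichlet characters modulo `M` (the version with complex characters of helper475's file
for project CQ).
-/

set_option autoImplicit false

open scoped Classical

namespace Pool.Agent.K1H97.NA.HAL

open Finset
open Pool.Agent.K1H97.NA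
open Pool.Agent.Y475.CQ (tsum_le zeta_le part_le pow_small summ)
open Pool.Agent.Y703.CQ (nr)

/-! ### L-functions -/

/-- the completely multiplicative function -/
noncomputable def fc (F : ℕ →* ℂ) (σ : ℝ) (hσ : 1 < σ) : ℕ →*₀ ℂ where
  toFun n := F n * (((n : ℝ) ^ (-σ) : ℝ) : ℂ)
  map_zero' := by rw [Nat.cast_zero, Real.zero_rpow (by linarith), Complex.ofReal_zero, mul_zero]
  map_one' := by simp
  map_mul' m n := by
    rw [map_mul, Nat.cast_mul, Real.mul_rpow (Nat.cast_nonneg _) (Nat.cast_nonneg _)]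
    push_cast
    ring

theorem summc (F : ℕ →* ℂ) (h1 : ∀ n, ‖F n‖ ≤ 1) (σ : ℝ) (hσ : 1 < σ) :
    Summable (fun n : ℕ => ‖F n * (((n : ℝ) ^ (-σ) : ℝ) : ℂ)‖) := by
  refine Summable.of_nonneg_of_le (fun _ => norm_nonneg _) (fun n => ?_)
    (Real.summable_nat_rpow.2 (by linarith : -σ < -1))
  have h2 := Real.rpow_nonneg (Nat.cast_nonneg n : (0 : ℝ) ≤ (n : ℝ)) (-σ)
  rw [norm_mul, Complex.norm_real, Real.norm_of_nonneg h2]
  nlinarith [h1 n]

/-- the L-function -/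
noncomputable def LL (F : ℕ →* ℂ) (σ : ℝ) : ℂ := ∑' n : ℕ, F n * (((n : ℝ) ^ (-σ) : ℝ) : ℂ)

theorem eulerc (F : ℕ →* ℂ) (h1 : ∀ n, ‖F n‖ ≤ 1) (σ : ℝ) (hσ : 1 < σ) :
    HasProd (fun p : Nat.Primes => (1 - F p * ((((p : ℕ) : ℝ) ^ (-σ) : ℝ) : ℂ))⁻¹) (LL F σ) :=
  EulerProduct.eulerProduct_completely_multiplicative_hasProd (f := fc F σ hσ)
    (summc F h1 σ hσ)

/-- a periodic multiplicative function different from one has sum zero -/
theorem sum_zero_c (F : ℕ →* ℂ) (q : ℕ) (hq : 1 ≤ q) (hp : ∀ n, F (q + n) = F n) (k : ℕ)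
    (hk : Nat.Coprime k q) (h : F k ≠ 1) : ∑ i ∈ range q, F i = 0 := by
  have hmod : ∀ n, F (n % q) = F n := by
    intro n
    induction n using Nat.strong_induction_on with
    | _ n ih =>
      by_cases hn : n < q
      · rw [Nat.mod_eq_of_lt hn]
      · obtain ⟨m, rfl⟩ := Nat.exists_eq_add_of_le (not_lt.1 hn)
        rw [Nat.add_mod_left, hp, ih m (by omega)]
  have hinj : Set.InjOn (fun n => k * n % q) (range q : Finset ℕ) := by
    intro a ha b hb hab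
    rw [coe_range, Set.mem_Iio] at ha hb
    have h1 : k * a ≡ k * b [MOD q] := hab
    have h2 : a ≡ b [MOD q] := Nat.ModEq.cancel_left_of_coprime
      (by rw [Nat.gcd_comm]; exact hk) h1
    exact Nat.ModEq.eq_of_lt_of_lt h2 ha hb
  have hmap : Set.MapsTo (fun n => k * n % q) (range q : Finset ℕ) (range q : Finset ℕ) := by
    intro a _
    rw [coe_range, Set.mem_Iio]
    exact Nat.mod_lt _ (by omega)
  have e : ∑ i ∈ range q, F k * F i = ∑ i ∈ range q, F i := by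
    refine sum_nbij (fun n => k * n % q) (fun a ha => ?_) hinj
      (surjOn_of_injOn_of_card_le _ hmap hinj le_rfl) (fun a _ => ?_)
    · exact_mod_cast hmap (by exact_mod_cast ha)
    · rw [hmod, map_mul]
  rw [← mul_sum] at e
  have h2 : (F k - 1) * ∑ i ∈ range q, F i = 0 := by
    rw [sub_mul, one_mul, e, sub_self]
  rcases mul_eq_zero.1 h2 with h3 | h3
  · exact absurd (sub_eq_zero.1 h3) h
  · exact h3

/-- the bound of a real part -/
theorem part_abs (F : ℕ →* ℂ) (h1 : ∀ n, ‖F n‖ ≤ 1) (q : ℕ) (hq : 1 ≤ q)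
    (hp : ∀ n, F (q + n) = F n) (h0 : ∑ i ∈ range q, F i = 0) (σ : ℝ) (hσ : 1 < σ)
    (r : ℂ →L[ℝ] ℝ) (hr : ∀ z, |r z| ≤ ‖z‖) : |r (LL F σ)| ≤ 3 + Real.log q := by
  have hs := (summc F h1 σ hσ).of_norm
  have e1 : r (LL F σ) = ∑' n : ℕ, r (F n) * (n : ℝ) ^ (-σ) := by
    unfold LL
    rw [ContinuousLinearMap.map_tsum r hs]
    refine tsum_congr fun n => ?_
    rw [mul_comm (F n), ← Complex.real_smul, map_smul, smul_eq_mul, mul_comm]
  have hb : ∀ n, |r (F n)| ≤ 1 := fun n => (hr _).trans (h1 n)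
  have hz : ∑ i ∈ range q, r (F i) = 0 := by rw [← map_sum, h0, map_zero]
  have a1 := tsum_le (fun n => r (F n)) q hq hb
    (part_le _ q hq hb (fun n => by rw [hp]) hz) σ hσ
  have hb' : ∀ n, |-(r (F n))| ≤ 1 := fun n => by rw [abs_neg]; exact hb n
  have a2 := tsum_le (fun n => -(r (F n))) q hq hb'
    (part_le _ q hq hb' (fun n => by rw [hp]) (by rw [sum_neg_distrib, hz, neg_zero])) σ hσ
  have e2 : ∑' n : ℕ, -(r (F n)) * (n : ℝ) ^ (-σ) = -∑' n : ℕ, r (F n) * (n : ℝ) ^ (-σ) := by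
    rw [← tsum_neg]
    refine tsum_congr fun n => ?_
    ring
  rw [e2] at a2
  rw [e1, abs_le]
  exact ⟨by linarith, a1⟩

theorem L_le (F : ℕ →* ℂ) (h1 : ∀ n, ‖F n‖ ≤ 1) (q : ℕ) (hq : 1 ≤ q)
    (hp : ∀ n, F (q + n) = F n) (k : ℕ) (hk : Nat.Coprime k q) (h : F k ≠ 1) (σ : ℝ)
    (hσ : 1 < σ) : ‖LL F σ‖ ≤ 2 * (3 + Real.log q) := by
  have h0 := sum_zero_c F q hq hp k hk h
  have a1 := part_abs F h1 q hq hp h0 σ hσ Complex.reCLM (fun z => by
    simpa using Complex.abs_re_le_norm z)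
  have a2 := part_abs F h1 q hq hp h0 σ hσ Complex.imCLM (fun z => by
    simpa using Complex.abs_im_le_norm z)
  have a3 := Complex.norm_le_abs_re_add_abs_im (LL F σ)
  rw [Complex.reCLM_apply] at a1
  rw [Complex.imCLM_apply] at a2
  linarith

theorem L_triv (F : ℕ →* ℂ) (h1 : ∀ n, ‖F n‖ ≤ 1) (σ : ℝ) (hσ : 1 < σ) :
    ‖LL F σ‖ ≤ 1 + 1 / (σ - 1) := by
  refine le_trans ?_ (zeta_le σ hσ)
  unfold LL
  refine (norm_tsum_le_tsum_norm (summc F h1 σ hσ)).trans ?_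
  refine Summable.tsum_le_tsum (fun n => ?_) (summc F h1 σ hσ)
    (summ (fun _ => 1) (by simp) σ hσ).of_norm
  have h2 := Real.rpow_nonneg (Nat.cast_nonneg n : (0 : ℝ) ≤ (n : ℝ)) (-σ)
  rw [norm_mul, Complex.norm_real, Real.norm_of_nonneg h2]
  exact mul_le_mul_of_nonneg_right (h1 n) h2

/-- the local factors -/
theorem loc {ι : Type} [Fintype ι] (z : ι → ℂ) (hz : ∀ i, ‖z i‖ < 1)
    (h : ∀ n : ℕ, 0 ≤ (∑ i, z i ^ n).re) : ‖∏ i, (1 - z i)‖ ≤ 1 := by
  have h1 : HasSum (fun n : ℕ => ∑ i, z i ^ n / (n : ℂ)) (∑ i, -Complex.log (1 - z i)) :=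
    hasSum_sum fun i _ => Complex.hasSum_taylorSeries_neg_log (hz i)
  have h2 := Complex.hasSum_re h1
  have h3 : 0 ≤ (∑ i, -Complex.log (1 - z i)).re := by
    refine HasSum.nonneg (fun n => ?_) h2
    rw [← sum_div, Complex.div_natCast_re]
    exact div_nonneg (h n) (Nat.cast_nonneg n)
  have hne : ∀ i, 1 - z i ≠ 0 := fun i h0 => by
    have h4 : z i = 1 := (sub_eq_zero.1 h0).symm
    have h5 := hz i
    rw [h4, norm_one] at h5
    exact lt_irrefl _ h5
  have h4 : Real.log ‖∏ i, (1 - z i)‖ ≤ 0 := by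
    rw [norm_prod, Real.log_prod (fun i _ => norm_ne_zero_iff.2 (hne i))]
    rw [sum_neg_distrib, Complex.neg_re, Complex.re_sum] at h3
    have h5 : ∑ i, Real.log ‖1 - z i‖ = ∑ i, (Complex.log (1 - z i)).re :=
      sum_congr rfl fun i _ => (Complex.log_re _).symm
    rw [h5]
    linarith
  have h5 : 0 < ‖∏ i, (1 - z i)‖ := norm_pos_iff.2 (prod_ne_zero_iff.2 fun i _ => hne i)
  rw [← Real.exp_log h5]
  exact Real.exp_le_one_iff.2 h4

/-! ### the characters -/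

/-- the characters: a Dirichlet character modulo `M` and perhaps the Jacobi symbol modulo `Q` -/
noncomputable def cF (M Q : ℕ) (i : DirichletCharacter ℂ M × Bool) : ℕ →* ℂ where
  toFun n := i.1 (n : ZMod M) * (if i.2 then ((jacobiSym (n : ℤ) Q : ℤ) : ℂ) else 1)
  map_one' := by simp
  map_mul' m n := by
    push_cast
    rw [map_mul, jacobiSym.mul_left]
    split_ifs
    · push_cast
      ring
    · ring

theorem cF_norm (M Q : ℕ) (i : DirichletCharacter ℂ M × Bool) (n : ℕ) : ‖cF M Q i n‖ ≤ 1 := by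
  show ‖i.1 (n : ZMod M) * (if i.2 then ((jacobiSym (n : ℤ) Q : ℤ) : ℂ) else 1)‖ ≤ 1
  have h1 : ‖i.1 (n : ZMod M)‖ ≤ 1 := DirichletCharacter.norm_le_one i.1 _
  have h2 : ‖(if i.2 then ((jacobiSym (n : ℤ) Q : ℤ) : ℂ) else 1 : ℂ)‖ ≤ 1 := by
    split_ifs
    · rcases jacobiSym.trichotomy (n : ℤ) Q with h | h | h <;> rw [h] <;> simp
    · simp
  rw [norm_mul]
  exact mul_le_one₀ h1 (norm_nonneg _) h2

/-- the main inequality -/
theorem main_le (M Q : ℕ) [NeZero M] (σ : ℝ) (hσ : 1 < σ) (P : Finset ℕ) (hP : ∀ p ∈ P, p.Prime)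
    (h1 : ∀ p ∈ P, ((p : ℕ) : ZMod M) = 1 ∧ jacobiSym (p : ℤ) Q = 1) :
    (∏ p ∈ P, (1 - (p : ℝ) ^ (-σ))⁻¹) ^ (Fintype.card (DirichletCharacter ℂ M × Bool)) ≤
      ∏ i : DirichletCharacter ℂ M × Bool, ‖LL (cF M Q i) σ‖ := by
  have hE := hasProd_prod (s := (univ : Finset (DirichletCharacter ℂ M × Bool)))
    (fun i _ => eulerc (cF M Q i) (cF_norm M Q i) σ hσ)
  have hN := (continuous_norm.tendsto _).comp hE
  rw [norm_prod] at hN
  set g : Nat.Primes → ℂ := fun p =>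
    ∏ i : DirichletCharacter ℂ M × Bool,
      (1 - cF M Q i p * ((((p : ℕ) : ℝ) ^ (-σ) : ℝ) : ℂ))⁻¹ with hg
  have hx : ∀ p : Nat.Primes, 0 < ((p : ℕ) : ℝ) ^ (-σ) ∧ ((p : ℕ) : ℝ) ^ (-σ) < 1 := fun p =>
    pow_small p p.2.two_le σ hσ
  have hg1 : ∀ p : Nat.Primes, 1 ≤ ‖g p‖ := by
    intro p
    obtain ⟨x0, x1⟩ := hx p
    set x : ℝ := ((p : ℕ) : ℝ) ^ (-σ) with hxd
    have hz1 : ∀ i, ‖cF M Q i p * ((x : ℝ) : ℂ)‖ < 1 := by
      intro i
      rw [norm_mul, Complex.norm_real, Real.norm_of_nonneg x0.le]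
      have := cF_norm M Q i p
      nlinarith
    have h2 : ‖∏ i : DirichletCharacter ℂ M × Bool, (1 - cF M Q i p * ((x : ℝ) : ℂ))‖ ≤ 1 := by
      refine loc _ hz1 fun n => ?_
      obtain ⟨s, hs, hs'⟩ : ∃ s : ℝ, ((jacobiSym ((p : ℕ) : ℤ) Q : ℤ) : ℂ) = (s : ℂ) ∧
          (s = 0 ∨ s = 1 ∨ s = -1) := by
        refine ⟨((jacobiSym ((p : ℕ) : ℤ) Q : ℤ) : ℝ), by push_cast; rfl, ?_⟩
        rcases jacobiSym.trichotomy ((p : ℕ) : ℤ) Q with h | h | h <;> rw [h] <;> simp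
      have e1 : ∑ i : DirichletCharacter ℂ M × Bool, (cF M Q i p * ((x : ℝ) : ℂ)) ^ n =
          ((x ^ n * (1 + s ^ n) * (if ((p : ℕ) : ZMod M) ^ n = 1 then (M.totient : ℝ) else 0) : ℝ) :
            ℂ) := by
        rw [Fintype.sum_prod_type]
        have e2 : ∀ χ : DirichletCharacter ℂ M,
            ∑ b : Bool, (cF M Q (χ, b) p * ((x : ℝ) : ℂ)) ^ n =
            ((x ^ n * (1 + s ^ n) : ℝ) : ℂ) * χ (((p : ℕ) : ZMod M) ^ n) := by
          intro χ
          rw [Fintype.sum_bool, map_pow]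
          show (χ ((p : ℕ) : ZMod M) * (if true then ((jacobiSym ((p : ℕ) : ℤ) Q : ℤ) : ℂ) else 1) *
            ((x : ℝ) : ℂ)) ^ n + (χ ((p : ℕ) : ZMod M) *
            (if false then ((jacobiSym ((p : ℕ) : ℤ) Q : ℤ) : ℂ) else 1) *
            ((x : ℝ) : ℂ)) ^ n = _
          rw [if_pos rfl, if_neg (by simp), hs]
          push_cast
          ring
        rw [sum_congr rfl fun χ _ => e2 χ, ← mul_sum, DirichletCharacter.sum_characters_eq]
        push_cast
        split_ifs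
        · push_cast
          ring
        · push_cast
          ring
      rw [e1, Complex.ofReal_re]
      have h3 : 0 ≤ 1 + s ^ n := by
        rcases hs' with h | h | h
        · rw [h]
          have : (0 : ℝ) ≤ 0 ^ n := by positivity
          linarith
        · rw [h, one_pow]
          norm_num
        · rw [h]
          rcases neg_one_pow_eq_or ℝ n with h' | h' <;> rw [h'] <;> norm_num
      have h4 : (0 : ℝ) ≤ if ((p : ℕ) : ZMod M) ^ n = 1 then (M.totient : ℝ) else 0 := by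
        split_ifs
        · positivity
        · exact le_rfl
      have h5 : 0 ≤ x ^ n := pow_nonneg x0.le n
      positivity
    have e : g p = (∏ i : DirichletCharacter ℂ M × Bool, (1 - cF M Q i p * ((x : ℝ) : ℂ)))⁻¹ := by
      rw [hg, ← prod_inv_distrib]
    rw [e, norm_inv]
    refine (one_le_inv₀ (norm_pos_iff.2 (prod_ne_zero_iff.2 fun i _ h0 => ?_))).2 h2
    have h4 : cF M Q i p * ((x : ℝ) : ℂ) = 1 := (sub_eq_zero.1 h0).symm
    have h5 := hz1 i
    rw [h4, norm_one] at h5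
    exact lt_irrefl _ h5
  obtain ⟨P', hPP⟩ : ∃ P' : Finset Nat.Primes, P' = P.subtype Nat.Prime := ⟨_, rfl⟩
  have hP' : (∏ p ∈ P, (1 - (p : ℝ) ^ (-σ))⁻¹) ^
      (Fintype.card (DirichletCharacter ℂ M × Bool)) = ∏ p ∈ P', ‖g p‖ := by
    have e1 : ∏ p ∈ P, (1 - (p : ℝ) ^ (-σ))⁻¹ =
        ∏ p ∈ P', (1 - ((p : ℕ) : ℝ) ^ (-σ))⁻¹ := by
      rw [hPP]
      exact (prod_subtype_of_mem (fun p : ℕ => (1 - (p : ℝ) ^ (-σ))⁻¹) hP).symm
    rw [e1, ← prod_pow]
    refine prod_congr rfl fun p hp => ?_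
    have hp' : (p : ℕ) ∈ P := by
      rw [hPP] at hp
      exact mem_subtype.1 hp
    obtain ⟨k1, k2⟩ := h1 p hp'
    obtain ⟨x0, x1⟩ := hx p
    have e2 : g p = ∏ _i : DirichletCharacter ℂ M × Bool,
        (1 - ((((p : ℕ) : ℝ) ^ (-σ) : ℝ) : ℂ))⁻¹ := by
      rw [hg]
      refine prod_congr rfl fun i _ => ?_
      have e3 : cF M Q i p = 1 := by
        show i.1 ((p : ℕ) : ZMod M) * (if i.2 then ((jacobiSym ((p : ℕ) : ℤ) Q : ℤ) : ℂ) else 1) = 1
        rw [k1, k2, map_one]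
        split_ifs <;> simp
      rw [e3, one_mul]
    rw [e2, prod_const, card_univ, norm_pow, norm_inv]
    congr 2
    have e4 : (1 - ((((p : ℕ) : ℝ) ^ (-σ) : ℝ) : ℂ)) = ((1 - ((p : ℕ) : ℝ) ^ (-σ) : ℝ) : ℂ) := by
      push_cast
      rfl
    rw [e4, Complex.norm_real, Real.norm_of_nonneg (by linarith)]
  rw [hP']
  refine ge_of_tendsto hN ?_
  filter_upwards [Filter.eventually_ge_atTop P'] with s hs
  show ∏ p ∈ P', ‖g p‖ ≤ ‖∏ p ∈ s, g p‖
  rw [norm_prod, ← prod_sdiff hs]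
  have h3 : 1 ≤ ∏ p ∈ s \ P', ‖g p‖ := by
    have : ∀ t : Finset Nat.Primes, 1 ≤ ∏ p ∈ t, ‖g p‖ := by
      intro t
      induction t using Finset.induction_on with
      | empty => simp
      | insert a t ha ih =>
        rw [prod_insert ha]
        exact one_le_mul_of_one_le_of_one_le (hg1 a) ih
    exact this _
  have h4 : 0 ≤ ∏ p ∈ P', ‖g p‖ :=
    prod_nonneg fun p _ => norm_nonneg _
  nlinarith

end Pool.Agent.K1H97.NA.HAL
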