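import Pool.Agent.K1H97.NA.Hal

/-!
# The logarithmic density of a residue class with a quadratic condition, second part
-/

set_option autoImplicit false

open scoped Classical

namespace Pool.Agent.K1H97.NA.HAL

open Finset
open Pool.Agent.K1H97.NA
open Pool.Agent.Y475.CQ (pow_small)
open Pool.Agent.Y703.CQ (nr)

theorem leg (p : ℕ) [Fact p.Prime] (n : ℕ) : jacobiSym (n : ℤ) p = legendreSym p n :=
  (jacobiSym.legendreSym.to_jacobiSym p n).symm

/-- a number congruent to one modulo `M` which is a nonresidue modulo the product of the primes -/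
theorem exK (M : ℕ) (W : Finset ℕ) (hW : W.Nonempty)
    (hp : ∀ u ∈ W, u.Prime ∧ u % 4 = 1 ∧ Nat.Coprime u M) :
    ∃ k : ℕ, k ≡ 1 [MOD M] ∧ Nat.Coprime k (∏ u ∈ W, u) ∧ jacobiSym (k : ℤ) (∏ u ∈ W, u) = -1 := by
  obtain ⟨v, hv⟩ := hW
  have hvp := (hp v hv).1
  have hvf : Fact v.Prime := ⟨hvp⟩
  have hv2 : v ≠ 2 := by rintro rfl; have := (hp 2 hv).2.1; omega
  obtain ⟨g, hg⟩ := FiniteField.exists_nonsquare (F := ZMod v) (by rw [ZMod.ringChar_zmod_n]; exact hv2)
  set Q := ∏ u ∈ W.erase v, u with hQ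
  have hM : ∏ u ∈ W, u = v * Q := (mul_prod_erase W (fun u => u) hv).symm
  have hcop : Nat.Coprime v (M * Q) := by
    refine Nat.Coprime.mul_right (hp v hv).2.2 ?_
    rw [Nat.coprime_prod_right_iff]
    intro u hu
    exact (Nat.coprime_primes hvp (hp u (mem_of_mem_erase hu)).1).2 (ne_of_mem_erase hu).symm
  obtain ⟨k, hk1, hk2⟩ := Nat.chineseRemainder hcop g.val 1
  have hk56 : k ≡ 1 [MOD M] := hk2.of_dvd (dvd_mul_right _ _)
  have hkQ : k ≡ 1 [MOD Q] := hk2.of_dvd (dvd_mul_left _ _)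
  have hkv : ((k : ℕ) : ZMod v) = g := by
    rw [(ZMod.natCast_eq_natCast_iff k g.val v).2 hk1, ZMod.natCast_zmod_val]
  have hJQ : jacobiSym (k : ℤ) Q = 1 := by
    have h1 : jacobiSym (k : ℤ) Q = jacobiSym ((1 : ℕ) : ℤ) Q :=
      jacobiSym.mod_left' ((Int.natCast_modEq_iff).2 hkQ)
    rw [h1, Nat.cast_one, jacobiSym.one_left]
  have hJv : jacobiSym (k : ℤ) v = -1 := by
    rw [leg, legendreSym.eq_neg_one_iff]
    rw [Int.cast_natCast, hkv]
    exact hg
  have hQ0 : Q ≠ 0 := by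
    rw [hQ, prod_ne_zero_iff]
    intro u hu
    exact (hp u (mem_of_mem_erase hu)).1.ne_zero
  have : NeZero v := ⟨hvp.ne_zero⟩
  have : NeZero Q := ⟨hQ0⟩
  refine ⟨k, hk56, ?_, ?_⟩
  · rw [hM]
    refine Nat.Coprime.mul_right ?_ ?_
    · rw [Nat.coprime_comm, Nat.Prime.coprime_iff_not_dvd hvp]
      intro h
      rw [← ZMod.natCast_eq_zero_iff, hkv] at h
      exact hg (h ▸ IsSquare.zero)
    · have := hkQ.gcd_eq
      rw [Nat.gcd_one_left] at this
      exact this
  · rw [hM, jacobiSym.mul_right, hJv, hJQ, mul_one]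

/-- a character different from one has a value different from one at a natural number -/
theorem exC (M : ℕ) [NeZero M] (χ : DirichletCharacter ℂ M) (h : χ ≠ 1) :
    ∃ k : ℕ, Nat.Coprime k M ∧ χ (k : ZMod M) ≠ 1 := by
  obtain ⟨a, ha⟩ := MulChar.ne_one_iff.1 h
  refine ⟨(a : ZMod M).val, ZMod.val_coe_unit_coprime a, ?_⟩
  rw [ZMod.natCast_zmod_val]
  exact ha

/-- the bounds of the L-functions -/
theorem L_bd (M : ℕ) [NeZero M] (W : Finset ℕ) (hW : W.Nonempty)
    (hp : ∀ u ∈ W, u.Prime ∧ u % 4 = 1 ∧ Nat.Coprime u M) (σ L : ℝ) (hσ : 1 < σ)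
    (hL : 1 + 1 / (σ - 1) ≤ L) (i : DirichletCharacter ℂ M × Bool) :
    ‖LL (cF M (∏ u ∈ W, u) i) σ‖ ≤
      (if i.2 then (8 + 2 * Real.log M) * Real.log ((∏ u ∈ W, u : ℕ) : ℝ) else
        (8 + 2 * Real.log M) * (if i.1 = 1 then L else 1)) := by
  obtain ⟨χ, b⟩ := i
  set Q := ∏ u ∈ W, u with hQ
  have hM1 : 1 ≤ M := Nat.one_le_iff_ne_zero.2 (NeZero.ne M)
  have hM0 : 0 ≤ Real.log M := Real.log_natCast_nonneg M
  have hQ5 : 5 ≤ Q := by
    obtain ⟨v, hv⟩ := hW
    have h1 : v ∣ Q := dvd_prod_of_mem (fun u => u) hv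
    have h2 : 0 < Q := prod_pos fun u hu => (hp u hu).1.pos
    have h4 : 5 ≤ v := by
      have a1 := (hp v hv).1.two_le
      have a2 := (hp v hv).2.1
      omega
    exact h4.trans (Nat.le_of_dvd h2 h1)
  have hlQ : 1 ≤ Real.log Q := by
    have h1 : (5 : ℝ) ≤ Q := by exact_mod_cast hQ5
    have h2 : Real.exp 1 ≤ Q := by
      have := Real.exp_one_lt_d9
      linarith
    rw [← Real.log_exp 1]
    exact Real.log_le_log (Real.exp_pos _) h2
  cases b with
  | true =>
    rw [if_pos rfl]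
    obtain ⟨k, hk1, hk2, hk3⟩ := exK M W hW hp
    have hk : Nat.Coprime k M := by
      have := hk1.gcd_eq
      rw [Nat.gcd_one_left] at this
      exact this
    have hkM : ((k : ℕ) : ZMod M) = 1 := by
      rw [(ZMod.natCast_eq_natCast_iff k 1 M).2 hk1, Nat.cast_one]
    have hper : ∀ n, cF M Q (χ, true) (M * Q + n) = cF M Q (χ, true) n := by
      intro n
      show χ ((M * Q + n : ℕ) : ZMod M) *
        (if true then ((jacobiSym ((M * Q + n : ℕ) : ℤ) Q : ℤ) : ℂ) else 1) =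
        χ ((n : ℕ) : ZMod M) * (if true then ((jacobiSym ((n : ℕ) : ℤ) Q : ℤ) : ℂ) else 1)
      have e1 : ((M * Q + n : ℕ) : ZMod M) = ((n : ℕ) : ZMod M) := by
        push_cast
        rw [ZMod.natCast_self, zero_mul, zero_add]
      have e2 : jacobiSym ((M * Q + n : ℕ) : ℤ) Q = jacobiSym ((n : ℕ) : ℤ) Q := by
        refine jacobiSym.mod_left' ((Int.natCast_modEq_iff).2 ?_)
        show (M * Q + n) % Q = n % Q
        rw [Nat.mul_add_mod']
      rw [e1, e2]
    have hF : cF M Q (χ, true) k ≠ 1 := by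
      have e : cF M Q (χ, true) k = -1 := by
        show χ ((k : ℕ) : ZMod M) *
          (if true then ((jacobiSym ((k : ℕ) : ℤ) Q : ℤ) : ℂ) else 1) = -1
        rw [hkM, map_one, if_pos rfl, hk3]
        simp
      rw [e]
      norm_num
    have h5 := L_le (cF M Q (χ, true)) (cF_norm M Q _) (M * Q)
      (Nat.mul_pos hM1 (by omega)) hper k (Nat.Coprime.mul_right hk hk2) hF σ hσ
    refine h5.trans ?_
    have hQ0 : (Q : ℝ) ≠ 0 := by
      have : Q ≠ 0 := by omega
      exact_mod_cast this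
    have hMM : (M : ℝ) ≠ 0 := by exact_mod_cast NeZero.ne M
    rw [Nat.cast_mul, Real.log_mul hMM hQ0]
    nlinarith
  | false =>
    rw [if_neg (by simp)]
    show _ ≤ (8 + 2 * Real.log M) * (if χ = 1 then L else 1)
    split_ifs with h
    · refine (L_triv _ (cF_norm M Q _) σ hσ).trans (hL.trans ?_)
      have : 0 < 1 / (σ - 1) := by
        have : 0 < σ - 1 := by linarith
        positivity
      nlinarith
    · obtain ⟨k, hk, hk1⟩ := exC M χ h
      have e : ∀ n : ℕ, cF M Q (χ, false) n = χ (n : ZMod M) := by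
        intro n
        show χ (n : ZMod M) * (if false then ((jacobiSym (n : ℤ) Q : ℤ) : ℂ) else 1) = _
        simp
      have hper : ∀ n, cF M Q (χ, false) (M + n) = cF M Q (χ, false) n := by
        intro n
        rw [e, e]
        push_cast
        rw [ZMod.natCast_self, zero_add]
      have h5 := L_le (cF M Q (χ, false)) (cF_norm M Q _) M hM1 hper k hk (by rw [e]; exact hk1)
        σ hσ
      linarith

/-- the symbols of a prime of the class -/
theorem jac_one (W : Finset ℕ) (hp : ∀ u ∈ W, u.Prime ∧ u % 4 = 1) (p : ℕ) (h1 : p.Prime)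
    (h2 : p % 4 = 1) (hpW : p ∉ W) (hs : ∑ u ∈ W, nr p u = 0) :
    jacobiSym (p : ℤ) (∏ u ∈ W, u) = 1 := by
  have hpf : Fact p.Prime := ⟨h1⟩
  have key : ∀ W' : Finset ℕ, W' ⊆ W →
      jacobiSym (p : ℤ) (∏ u ∈ W', u) = if ∑ u ∈ W', nr p u = 0 then 1 else -1 := by
    intro W'
    induction W' using Finset.induction_on with
    | empty => intro _; simp
    | insert a s ha ih =>
      intro hs'
      have haW : a ∈ W := hs' (mem_insert_self a s)
      have ihs := ih ((subset_insert a s).trans hs')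
      have hap := (hp a haW).1
      have ha8 := (hp a haW).2
      have haf : Fact a.Prime := ⟨hap⟩
      have : NeZero a := ⟨hap.ne_zero⟩
      have : NeZero (∏ u ∈ s, u) := ⟨by
        rw [prod_ne_zero_iff]
        intro u hu
        exact (hp u (hs' (mem_insert_of_mem hu))).1.ne_zero⟩
      rw [prod_insert ha, sum_insert ha, jacobiSym.mul_right, ihs]
      have hodd : Odd a := Nat.odd_iff.2 (by omega)
      have hrec : jacobiSym (p : ℤ) a = jacobiSym (a : ℤ) p :=
        jacobiSym.quadratic_reciprocity_one_mod_four (by omega) hodd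
      have hne : ((a : ℤ) : ZMod p) ≠ 0 := by
        intro h0
        rw [Int.cast_natCast, ZMod.natCast_eq_zero_iff] at h0
        have := (Nat.prime_dvd_prime_iff_eq h1 hap).1 h0
        exact hpW (this ▸ haW)
      have hval : jacobiSym (p : ℤ) a = if nr p a = 0 then 1 else -1 := by
        rw [hrec, leg]
        unfold nr
        by_cases hsq : IsSquare (a : ZMod p)
        · rw [if_pos hsq, if_pos rfl]
          exact (legendreSym.eq_one_iff p hne).2 (by rwa [Int.cast_natCast])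
        · rw [if_neg hsq, if_neg (by decide)]
          exact (legendreSym.eq_neg_one_iff p).2 (by rwa [Int.cast_natCast])
      rw [hval]
      have hz : ∀ x y : ZMod 2, (if x = 0 then (1 : ℤ) else -1) * (if y = 0 then 1 else -1) =
          if x + y = 0 then 1 else -1 := by decide
      exact hz _ _
  rw [key W Subset.rfl, if_pos hs]

/-- **the logarithmic density** -/
theorem hal_main (M q : ℕ) (hM4 : 4 ∣ M) (hM0 : M ≠ 0) (hq : q.Prime ∧ q % 4 = 1)
    (hqM : Nat.Coprime q M) (P : ℕ → Prop) (hP : ∀ p, P p → p.Prime ∧ p ≡ 1 [MOD M]) :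
    ∃ C : ℝ, 1 ≤ C ∧ ∀ (W : Finset ℕ) (T : ℕ), W.Nonempty → (∀ u ∈ W, u = q ∨ P u) → 2 ≤ T →
    ∑ S ∈ HD P W T, (1 : ℝ) / ((∏ p ∈ S, p : ℕ) : ℝ) ≤
      C * (Real.log ((∏ u ∈ W, u : ℕ) : ℝ)) ^ (1 / 2 : ℝ) *
        (Real.log T) ^ ((1 / (M.totient : ℝ)) / 2) := by
  haveI : NeZero M := ⟨hM0⟩
  have hP4 : ∀ p, P p → p % 4 = 1 := by
    intro p hp
    have := (hP p hp).2.of_dvd hM4
    have h2 : p % 4 = 1 % 4 := this
    omega
  have hPM : ∀ p, P p → Nat.Coprime p M := by
    intro p hp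
    have := (hP p hp).2.gcd_eq
    rw [Nat.gcd_one_left] at this
    exact this
  have hlM0 : 0 ≤ Real.log M := Real.log_natCast_nonneg M
  obtain ⟨K, hK⟩ : ∃ K : ℝ, K = 8 + 2 * Real.log M := ⟨_, rfl⟩
  have hK8 : 8 ≤ K := by linarith
  refine ⟨9 * K, by linarith, fun W T hW hWq hT => ?_⟩
  have hp : ∀ u ∈ W, u.Prime ∧ u % 4 = 1 ∧ Nat.Coprime u M := by
    intro u hu
    rcases hWq u hu with h | h
    · rw [h]
      exact ⟨hq.1, hq.2, hqM⟩
    · exact ⟨(hP u h).1, hP4 u h, hPM u h⟩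
  set Q := ∏ u ∈ W, u with hQ
  have lT : 0 < Real.log T := Real.log_pos (by exact_mod_cast (by omega : 1 < T))
  have hlog2 := Real.log_two_gt_d9
  have lT2 : Real.log 2 ≤ Real.log T := Real.log_le_log (by norm_num) (by exact_mod_cast hT)
  obtain ⟨σ, hσd⟩ : ∃ σ : ℝ, σ = 1 + 1 / Real.log T := ⟨_, rfl⟩
  have hσ : 1 < σ := by
    rw [hσd]
    have : 0 < 1 / Real.log T := by positivity
    linarith
  have hσL : 1 + 1 / (σ - 1) ≤ 3 * Real.log T := by
    have e2 : 1 / (σ - 1) = Real.log T := by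
      rw [hσd]
      field_simp
      ring
    rw [e2]
    linarith
  obtain ⟨R, hRd⟩ : ∃ R : Finset ℕ, R = (range (T + 1)).filter
    (fun p => P p ∧ p ∉ W ∧ ∑ u ∈ W, nr p u = 0) := ⟨_, rfl⟩
  have hR : ∀ p ∈ R, P p ∧ p ∉ W ∧ ∑ u ∈ W, nr p u = 0 := by
    intro p hp'
    rw [hRd, mem_filter] at hp'
    exact hp'.2
  have hmain := main_le M Q σ hσ R (fun p h => (hP p (hR p h).1).1) (fun p h => by
    refine ⟨?_, jac_one W (fun u hu => ⟨(hp u hu).1, (hp u hu).2.1⟩) p (hP p (hR p h).1).1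
      (hP4 p (hR p h).1) (hR p h).2.1 (hR p h).2.2⟩
    rw [(ZMod.natCast_eq_natCast_iff p 1 M).2 (hP p (hR p h).1).2, Nat.cast_one])
  have hQ1 : 0 < Real.log (Q : ℝ) := by
    obtain ⟨v, hv⟩ := hW
    have h1 : v ∣ Q := dvd_prod_of_mem (fun u => u) hv
    have h2 : 0 < Q := prod_pos fun u hu => (hp u hu).1.pos
    have h3 : 2 ≤ Q := (hp v hv).1.two_le.trans (Nat.le_of_dvd h2 h1)
    exact Real.log_pos (by exact_mod_cast (by omega : 1 < Q))
  have hcard : Fintype.card (DirichletCharacter ℂ M) = M.totient := by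
    rw [← Nat.card_eq_fintype_card]
    exact DirichletCharacter.card_eq_totient_of_hasEnoughRootsOfUnity ℂ M
  obtain ⟨φ, hφ⟩ : ∃ φ : ℕ, φ = M.totient := ⟨_, rfl⟩
  have hφ1 : 1 ≤ φ := by
    rw [hφ]
    exact Nat.totient_pos.2 (Nat.pos_of_ne_zero hM0)
  rw [← hφ] at hcard ⊢
  have hprod : ∏ i : DirichletCharacter ℂ M × Bool, ‖LL (cF M Q i) σ‖ ≤
      3 * Real.log T * K ^ (2 * φ) * (Real.log (Q : ℝ)) ^ φ := by
    have h1 : ∏ i : DirichletCharacter ℂ M × Bool, ‖LL (cF M Q i) σ‖ ≤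
        ∏ i : DirichletCharacter ℂ M × Bool, (if i.2 then K * Real.log (Q : ℝ) else
          K * (if i.1 = 1 then 3 * Real.log T else 1)) := by
      refine prod_le_prod (fun i _ => norm_nonneg _) fun i _ => ?_
      have := L_bd M W hW hp σ (3 * Real.log T) hσ hσL i
      rw [hK]
      exact this
    refine h1.trans (le_of_eq ?_)
    rw [Fintype.prod_prod_type]
    have e1 : ∀ χ : DirichletCharacter ℂ M, ∏ b : Bool, (if b then K * Real.log (Q : ℝ) else
          K * (if χ = 1 then 3 * Real.log T else 1)) =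
        (K * Real.log (Q : ℝ) * K) * (if χ = 1 then 3 * Real.log T else 1) := by
      intro χ
      rw [Fintype.prod_bool, if_pos rfl, if_neg (by simp)]
      ring
    have e2 : ∏ χ : DirichletCharacter ℂ M, ∏ b : Bool,
        (if (χ, b).2 then K * Real.log (Q : ℝ) else
          K * (if (χ, b).1 = 1 then 3 * Real.log T else 1)) =
        ∏ χ : DirichletCharacter ℂ M,
          ((K * Real.log (Q : ℝ) * K) * (if χ = 1 then 3 * Real.log T else 1)) :=
      prod_congr rfl fun χ _ => e1 χ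
    rw [e2, prod_mul_distrib, prod_const, card_univ, hcard, prod_ite_eq' univ
      (1 : DirichletCharacter ℂ M) (fun _ => 3 * Real.log T), if_pos (mem_univ _)]
    ring
  have hbig := hmain.trans hprod
  rw [Fintype.card_prod, hcard, Fintype.card_bool, mul_comm φ 2] at hbig
  -- the sum
  have hx : ∀ p ∈ R, 0 < (p : ℝ) ^ (-σ) ∧ (p : ℝ) ^ (-σ) < 1 := fun p h =>
    pow_small p (hP p (hR p h).1).1.two_le σ hσ
  have hsum : ∑ S ∈ HD P W T, (1 : ℝ) / ((∏ p ∈ S, p : ℕ) : ℝ) ≤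
      3 * ∏ p ∈ R, (1 - (p : ℝ) ^ (-σ))⁻¹ := by
    have s1 : ∑ S ∈ HD P W T, (1 : ℝ) / ((∏ p ∈ S, p : ℕ) : ℝ) ≤
        ∑ S ∈ R.powerset, 3 * ∏ p ∈ S, (p : ℝ) ^ (-σ) := by
      have hsub : HD P W T ⊆ R.powerset := by
        intro S hS
        unfold HD at hS
        rw [mem_filter, mem_powerset] at hS
        rw [mem_powerset]
        intro p hpS
        rw [hRd, mem_filter]
        exact ⟨hS.1 hpS, hS.2.1 p hpS⟩
      refine le_trans (sum_le_sum fun S hS => ?_) (sum_le_sum_of_subset_of_nonneg hsub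
        fun S hS _ => ?_)
      · have hSP := hsub hS
        rw [mem_powerset] at hSP
        unfold HD at hS
        rw [mem_filter] at hS
        have hle := hS.2.2
        have hpos : 0 < ∏ p ∈ S, p := prod_pos fun p h => (hP p (hR p (hSP h)).1).1.pos
        have e : ∏ p ∈ S, (p : ℝ) ^ (-σ) = ((∏ p ∈ S, p : ℕ) : ℝ) ^ (-σ) := by
          rw [Nat.cast_prod, Real.finsetProd_rpow]
          intro p _
          exact Nat.cast_nonneg p
        rw [e]
        generalize ∏ p ∈ S, p = N at hle hpos ⊢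
        have hN : (0 : ℝ) < (N : ℝ) := by exact_mod_cast hpos
        have hNT : (N : ℝ) ≤ (T : ℝ) := by exact_mod_cast hle
        have hN1 : (1 : ℝ) ≤ (N : ℝ) := by exact_mod_cast hpos
        have h2 : (N : ℝ) ^ (σ - 1) ≤ 3 := by
          have a1 : (N : ℝ) ^ (σ - 1) = Real.exp (Real.log N * (σ - 1)) :=
            Real.rpow_def_of_pos hN _
          have a2 : Real.log N * (σ - 1) ≤ 1 := by
            have a3 : σ - 1 = 1 / Real.log T := by rw [hσd]; ring
            rw [a3, mul_one_div, div_le_one lT]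
            exact Real.log_le_log hN hNT
          rw [a1]
          exact (Real.exp_le_exp.2 a2).trans (Real.exp_one_lt_d9.le.trans (by norm_num))
        have h3 : (N : ℝ) ^ (σ - 1) * (N : ℝ) ^ (-σ) = 1 / N := by
          rw [← Real.rpow_add hN]
          have : σ - 1 + -σ = -1 := by ring
          rw [this, Real.rpow_neg_one, one_div]
        rw [← h3]
        exact mul_le_mul_of_nonneg_right h2 (Real.rpow_nonneg hN.le _)
      · refine mul_nonneg (by norm_num) (prod_nonneg fun p _ => Real.rpow_nonneg (Nat.cast_nonneg _) _)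
    refine s1.trans ?_
    rw [← mul_sum, ← prod_one_add]
    refine mul_le_mul_of_nonneg_left (prod_le_prod (fun p h => ?_) fun p h => ?_) (by norm_num)
    · have := (hx p h).1
      positivity
    · obtain ⟨a1, a2⟩ := hx p h
      rw [← one_div, le_div_iff₀ (by linarith)]
      nlinarith
  generalize ∏ p ∈ R, (1 - (p : ℝ) ^ (-σ))⁻¹ = B at hbig hsum
  have hH0 : 0 ≤ ∑ S ∈ HD P W T, (1 : ℝ) / ((∏ p ∈ S, p : ℕ) : ℝ) :=
    sum_nonneg fun S _ => by positivity
  generalize ∑ S ∈ HD P W T, (1 : ℝ) / ((∏ p ∈ S, p : ℕ) : ℝ) = H at hsum hH0 ⊢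
  generalize Real.log (Q : ℝ) = Y at hbig hQ1 ⊢
  have hφR : (0 : ℝ) < φ := by exact_mod_cast hφ1
  apply le_of_pow_le_pow_left₀ (n := 2 * φ) (by omega) (by positivity)
  have e1 : (9 * K * Y ^ (1 / 2 : ℝ) * Real.log T ^ ((1 / (φ : ℝ)) / 2)) ^ (2 * φ) =
      (9 * K) ^ (2 * φ) * Y ^ φ * Real.log T := by
    rw [mul_pow, mul_pow, ← Real.rpow_natCast (Y ^ (1 / 2 : ℝ)), ← Real.rpow_mul hQ1.le,
      ← Real.rpow_natCast (Real.log T ^ ((1 / (φ : ℝ)) / 2)), ← Real.rpow_mul lT.le]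
    have e2 : (1 / 2 : ℝ) * ((2 * φ : ℕ) : ℝ) = ((φ : ℕ) : ℝ) := by
      push_cast
      ring
    have e3 : (1 / (φ : ℝ)) / 2 * ((2 * φ : ℕ) : ℝ) = 1 := by
      push_cast
      field_simp
    rw [e2, e3, Real.rpow_one, Real.rpow_natCast]
  rw [e1]
  calc H ^ (2 * φ) ≤ (3 * B) ^ (2 * φ) := pow_le_pow_left₀ hH0 hsum _
    _ = 3 ^ (2 * φ) * B ^ (2 * φ) := by rw [mul_pow]
    _ ≤ 3 ^ (2 * φ) * (3 * Real.log T * K ^ (2 * φ) * Y ^ φ) :=
        mul_le_mul_of_nonneg_left hbig (by positivity)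
    _ = (3 ^ (2 * φ) * 3) * (K ^ (2 * φ) * (Y ^ φ * Real.log T)) := by ring
    _ ≤ 9 ^ (2 * φ) * (K ^ (2 * φ) * (Y ^ φ * Real.log T)) := by
        apply mul_le_mul_of_nonneg_right _ (by positivity)
        have h9 : (9 : ℝ) ^ (2 * φ) = 3 ^ (2 * φ) * 3 ^ (2 * φ) := by
          rw [← mul_pow]
          norm_num
        rw [h9]
        refine mul_le_mul_of_nonneg_left ?_ (by positivity)
        calc (3 : ℝ) = 3 ^ 1 := (pow_one _).symm
          _ ≤ 3 ^ (2 * φ) := pow_le_pow_right₀ (by norm_num) (by omega)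
    _ = (9 * K) ^ (2 * φ) * Y ^ φ * Real.log T := by
        rw [mul_pow]
        ring

end Pool.Agent.K1H97.NA.HAL
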