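import Pool.Agent.K1H97.NA.Stm

/-! # The sum over the boxes (after helper302's file for project CQ) -/

set_option autoImplicit false

open scoped Classical

namespace Pool.Agent.K1H97.NA

open Finset
open Pool.Agent.Y703.CX (sm la jj XX)
open Pool.Agent.Y703.CQ (nr sg prs HB)

/-- the key of a set -/
noncomputable def ky (z H : ℕ) (S : Finset ℕ) : Finset ℕ × Finset ℕ :=
  (sm z S, (la z S).image (jj H))

/-- the keys which occur -/
structure KP (P : ℕ → Prop) (X z H k V : ℕ) (S₀ : Finset ℕ) (J : Finset ℕ) : Prop where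
  cl : ∀ q ∈ S₀, P q
  le : ∀ q ∈ S₀, q ≤ z
  card : S₀.card + J.card ≤ k
  prod : (∏ p ∈ S₀, p) * ∏ e ∈ J, XX H e ≤ X
  few : S₀.card + V + 2 ≤ J.card

theorem le_XX {H p : ℕ} (hH : 1 ≤ H) (hp : 1 ≤ p) : p ≤ XX H (jj H p) := by
  unfold XX
  apply Nat.le_floor
  have hp0 : (0 : ℝ) < p := by exact_mod_cast hp
  have hH0 : (0 : ℝ) < H := by exact_mod_cast hH
  have h1 : (H : ℝ) * Real.log p < (jj H p : ℝ) + 1 := Nat.lt_floor_add_one _
  have h2 : Real.log p ≤ ((jj H p : ℝ) + 1) / H := by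
    rw [le_div_iff₀ hH0]
    linarith
  calc (p : ℝ) = Real.exp (Real.log p) := (Real.exp_log hp0).symm
    _ ≤ _ := Real.exp_le_exp.2 h2

theorem sm_la_card (z : ℕ) (S : Finset ℕ) : (sm z S).card + (la z S).card = S.card :=
  Finset.card_filter_add_card_filter_not _

theorem sm_la_prod (z : ℕ) (S : Finset ℕ) : (∏ p ∈ sm z S, p) * ∏ p ∈ la z S, p = ∏ p ∈ S, p :=
  Finset.prod_filter_mul_prod_filter_not S (fun p => p ≤ z) fun p => p

section

variable {P : ℕ → Prop} (hP : ∀ p, P p → p.Prime ∧ p % 4 = 1)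

include hP

theorem rr_iff {X z H k V : ℕ} (hH : 1 ≤ H) {S : Finset ℕ} (hS : ∀ q ∈ S, P q)
    (hi : Set.InjOn (jj H) (la z S : Set ℕ)) :
    S ∈ RR P X z H k V ↔ KP P X z H k V (ky z H S).1 (ky z H S).2 := by
  set J := (la z S).image (jj H) with hJ
  have hky : ky z H S = (sm z S, J) := rfl
  rw [hky]
  have f2 : J.card = (la z S).card := Finset.card_image_of_injOn hi
  have f8 : ∏ e ∈ J, XX H e = ∏ p ∈ la z S, XX H (jj H p) := by
    rw [hJ, Finset.prod_image hi]
  have hsm : sm z S ⊆ S := Finset.filter_subset _ _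
  have hla : la z S ⊆ S := Finset.filter_subset _ _
  constructor
  · intro h
    unfold RR at h
    rw [Finset.mem_filter] at h
    obtain ⟨h1, h2, h3, h4, h5⟩ := h
    refine ⟨fun q hq => hS q (hsm hq), fun q hq => (Finset.mem_filter.1 hq).2, ?_, ?_, ?_⟩
    · rw [f2, sm_la_card]
      exact h3
    · rw [f8]
      exact h4
    · rw [f2]
      exact h5
  · rintro ⟨k1, k2, k8, k9, k10⟩
    have hprod : ∏ p ∈ S, p ≤ X := by
      rw [← sm_la_prod z S]
      refine le_trans (Nat.mul_le_mul_left _ ?_) k9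
      rw [f8]
      refine Finset.prod_le_prod' fun p hp => le_XX hH (hP p (hS p (hla hp))).1.one_le
    unfold RR SS
    rw [Finset.mem_filter, Finset.mem_filter, Finset.mem_powerset]
    refine ⟨⟨?_, hS, hprod⟩, hi, ?_, ?_, ?_⟩
    · intro q hq
      rw [Finset.mem_range]
      have h1 : q ∣ ∏ p ∈ S, p := Finset.dvd_prod_of_mem _ hq
      have h2 : 0 < ∏ p ∈ S, p := Finset.prod_pos fun p hp => (hP p (hS p hp)).1.pos
      have := Nat.le_of_dvd h2 h1
      omega
    · rw [← sm_la_card z S, ← f2]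
      exact k8
    · rw [← f8]
      exact k9
    · rw [← f2]
      exact k10

/-- the primes of a block -/
noncomputable def CC (P : ℕ → Prop) (z H : ℕ) (e : ℕ) : Finset ℕ :=
  (Icc 1 (XX H e)).filter fun p => P p ∧ z < p ∧ jj H p = e

theorem mem_CC {z H : ℕ} (hH : 1 ≤ H) {e : ℕ} {p : ℕ} :
    p ∈ CC P z H e ↔ P p ∧ z < p ∧ jj H p = e := by
  unfold CC
  rw [Finset.mem_filter, Finset.mem_Icc]
  constructor
  · exact fun h => h.2
  · intro h
    refine ⟨⟨(hP _ h.1).1.one_le, ?_⟩, h⟩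
    have := le_XX hH (hP _ h.1).1.one_le
    rw [h.2.2] at this
    exact this

section fill
variable {z H : ℕ} {S₀ : Finset ℕ} {J : Finset ℕ} {n : ℕ} {e : Fin n ≃ J} {p : Fin n → ℕ}

theorem sm_fill (hH : 1 ≤ H) (h₀ : ∀ q ∈ S₀, q ≤ z) (hp : ∀ i, p i ∈ CC P z H (e i)) :
    sm z (S₀ ∪ univ.image p) = S₀ := by
  ext q
  unfold sm
  rw [Finset.mem_filter, Finset.mem_union, Finset.mem_image]
  constructor
  · rintro ⟨h | ⟨i, -, rfl⟩, h2⟩
    · exact h
    · have := ((mem_CC hP hH).1 (hp i)).2.1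
      omega
  · exact fun h => ⟨Or.inl h, h₀ q h⟩

theorem la_fill (hH : 1 ≤ H) (h₀ : ∀ q ∈ S₀, q ≤ z) (hp : ∀ i, p i ∈ CC P z H (e i)) :
    la z (S₀ ∪ univ.image p) = univ.image p := by
  ext q
  unfold la
  rw [Finset.mem_filter, Finset.mem_union, Finset.mem_image]
  constructor
  · rintro ⟨h | h, h2⟩
    · exact absurd (h₀ q h) h2
    · exact h
  · rintro ⟨i, -, rfl⟩
    have := ((mem_CC hP hH).1 (hp i)).2.1
    exact ⟨Or.inr ⟨i, Finset.mem_univ _, rfl⟩, by omega⟩

theorem jj_fill (hH : 1 ≤ H) (hp : ∀ i, p i ∈ CC P z H (e i)) (i : Fin n) : jj H (p i) = e i :=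
  ((mem_CC hP hH).1 (hp i)).2.2

theorem im_fill (hH : 1 ≤ H) (hp : ∀ i, p i ∈ CC P z H (e i)) :
    (univ.image p).image (jj H) = J := by
  ext k
  rw [Finset.mem_image]
  constructor
  · rintro ⟨q, hq, rfl⟩
    rw [Finset.mem_image] at hq
    obtain ⟨i, -, rfl⟩ := hq
    rw [jj_fill hP hH hp]
    exact (e i).2
  · intro hk
    refine ⟨p (e.symm ⟨k, hk⟩), Finset.mem_image_of_mem _ (Finset.mem_univ _), ?_⟩
    rw [jj_fill hP hH hp, Equiv.apply_symm_apply]

theorem ky_fill (hH : 1 ≤ H) (h₀ : ∀ q ∈ S₀, q ≤ z) (hp : ∀ i, p i ∈ CC P z H (e i)) :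
    ky z H (S₀ ∪ univ.image p) = (S₀, J) := by
  unfold ky
  rw [sm_fill hP hH h₀ hp, la_fill hP hH h₀ hp, im_fill hP hH hp]

theorem inj_fill (hH : 1 ≤ H) (h₀ : ∀ q ∈ S₀, q ≤ z) (hp : ∀ i, p i ∈ CC P z H (e i)) :
    Set.InjOn (jj H) (la z (S₀ ∪ univ.image p) : Set ℕ) := by
  rw [la_fill hP hH h₀ hp]
  intro a ha b hb hab
  rw [Finset.mem_coe, Finset.mem_image] at ha hb
  obtain ⟨i, -, rfl⟩ := ha
  obtain ⟨j, -, rfl⟩ := hb
  rw [jj_fill hP hH hp, jj_fill hP hH hp] at hab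
  rw [e.injective (Subtype.ext hab)]

end fill

omit hP in
theorem rr_facts {X z H k V : ℕ} {S : Finset ℕ} (hS : S ∈ RR P X z H k V) :
    (∀ q ∈ S, P q) ∧ Set.InjOn (jj H) (la z S : Set ℕ) ∧ ∏ p ∈ S, p ≤ X := by
  unfold RR SS at hS
  rw [Finset.mem_filter, Finset.mem_filter] at hS
  exact ⟨hS.1.2.1, hS.2.1, hS.1.2.2⟩

theorem key_bij {X z H k V : ℕ} (hH : 1 ≤ H) {S₀ J : Finset ℕ} {n : ℕ} (e : Fin n ≃ J)
    (hkey : KP P X z H k V S₀ J) (Q : Finset ℕ → Prop) [DecidablePred Q] :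
    ((Fintype.piFinset fun i => CC P z H (e i)).filter fun p => Q (S₀ ∪ univ.image p)).card =
      ((RR P X z H k V).filter fun S => ky z H S = (S₀, J) ∧ Q S).card := by
  have h₀ := hkey.le
  apply Finset.card_bij (fun (p : Fin n → ℕ) _ => S₀ ∪ univ.image p)
  · intro p hp
    rw [Finset.mem_filter, Fintype.mem_piFinset] at hp
    obtain ⟨hp, hQ⟩ := hp
    have hk := ky_fill hP hH h₀ hp
    rw [Finset.mem_filter]
    refine ⟨?_, hk, hQ⟩
    rw [rr_iff hP hH _ (inj_fill hP hH h₀ hp), hk]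
    · exact hkey
    · intro q hq
      rw [Finset.mem_union, Finset.mem_image] at hq
      rcases hq with hq | ⟨i, -, rfl⟩
      · exact hkey.cl q hq
      · exact ((mem_CC hP hH).1 (hp i)).1
  · intro p hp p' hp' h
    rw [Finset.mem_filter, Fintype.mem_piFinset] at hp hp'
    have h1 := la_fill hP hH h₀ hp.1
    rw [h, la_fill hP hH h₀ hp'.1] at h1
    funext i
    have h2 : p i ∈ univ.image p' := by
      rw [h1]
      exact Finset.mem_image_of_mem _ (Finset.mem_univ _)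
    rw [Finset.mem_image] at h2
    obtain ⟨j, -, hj⟩ := h2
    have h3 := jj_fill hP hH hp.1 i
    have h4 := jj_fill hP hH hp'.1 j
    rw [hj, h3] at h4
    rw [← hj, e.injective (Subtype.ext h4)]
  · intro S hS
    rw [Finset.mem_filter] at hS
    obtain ⟨hSR, hSk, hSP⟩ := hS
    obtain ⟨hSO, hSI, -⟩ := rr_facts hSR
    have hk1 : sm z S = S₀ := congrArg Prod.fst hSk
    have hk2 : (la z S).image (jj H) = J := congrArg Prod.snd hSk
    have hex : ∀ i : Fin n, ∃ q ∈ la z S, jj H q = e i := by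
      intro i
      have h2 : (e i : ℕ) ∈ (la z S).image (jj H) := by
        rw [hk2]
        exact (e i).2
      rw [Finset.mem_image] at h2
      obtain ⟨a, ha, hb⟩ := h2
      exact ⟨a, ha, hb⟩
    choose p hp1 hp2 using hex
    have him : univ.image p = la z S := by
      ext q
      rw [Finset.mem_image]
      constructor
      · rintro ⟨i, -, rfl⟩
        exact hp1 i
      · intro hq
        have hjq : jj H q ∈ J := by
          rw [← hk2]
          exact Finset.mem_image_of_mem _ hq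
        refine ⟨e.symm ⟨jj H q, hjq⟩, Finset.mem_univ _, hSI (Finset.mem_coe.2 (hp1 _))
          (Finset.mem_coe.2 hq) ?_⟩
        rw [hp2, Equiv.apply_symm_apply]
    have hSe : S₀ ∪ univ.image p = S := by
      rw [him, ← hk1]
      unfold sm la
      exact Finset.filter_union_filter_not_eq _ _
    refine ⟨p, ?_, hSe⟩
    rw [Finset.mem_filter, Fintype.mem_piFinset, hSe]
    refine ⟨fun i => (mem_CC hP hH).2 ⟨hSO _ (Finset.mem_filter.1 (hp1 i)).1,
      not_le.1 (Finset.mem_filter.1 (hp1 i)).2, hp2 i⟩, hSP⟩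

theorem CC_facts {z H : ℕ} (hH : 1 ≤ H) {e : ℕ} {p : ℕ} (hp : p ∈ CC P z H e) :
    P p ∧ z < p ∧ p ≤ XX H e := by
  obtain ⟨h1, h2, h3⟩ := (mem_CC hP hH).1 hp
  refine ⟨h1, h2, ?_⟩
  unfold CC at hp
  exact (Finset.mem_Icc.1 (Finset.mem_filter.1 hp).1).2

theorem CC_disj {z H : ℕ} (hH : 1 ≤ H) {J : Finset ℕ} {n : ℕ} (e : Fin n ≃ J) (i l : Fin n)
    (hil : i ≠ l) : Disjoint (CC P z H (e i)) (CC P z H (e l)) := by
  rw [Finset.disjoint_left]
  intro p hp hp'
  have h5 := ((mem_CC hP hH).1 hp).2.2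
  have h6 := ((mem_CC hP hH).1 hp').2.2
  exact hil (e.injective (Subtype.ext (h5.symm.trans h6)))

omit hP in
theorem root12 {x κ C A B z : ℝ} (_hx : 0 ≤ x) (hκ : 0 ≤ κ) (hA : 0 ≤ A) (hB : 0 ≤ B) (hz : 0 < z)
    (h : x ^ 12 * z ≤ C * (A * B) ^ 12) (hC : C ≤ κ ^ 12 * z) : x ≤ κ * (A * B) := by
  have h1 : x ^ 12 * z ≤ (κ * (A * B)) ^ 12 * z := by
    refine h.trans ?_
    have h2 : 0 ≤ (A * B) ^ 12 := by positivity
    have h3 := mul_le_mul_of_nonneg_right hC h2
    refine h3.trans (le_of_eq ?_)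
    ring
  have h2 : x ^ 12 ≤ (κ * (A * B)) ^ 12 := le_of_mul_le_mul_right h1 hz
  exact le_of_pow_le_pow_left₀ (by norm_num) (by positivity) h2

theorem hb_box {C₁ : ℝ}
    (h1 : ∀ (P Q : Finset ℕ) (A B z : ℕ) (c d : ℕ → ℂ),
      (∀ p ∈ P, p.Prime ∧ p % 4 = 1 ∧ p ≤ A) → (∀ q ∈ Q, q.Prime ∧ q ≠ 2 ∧ q ≤ B) →
      Disjoint P Q → 1 ≤ z → z ≤ A → z ≤ B →
      (∀ p, ‖c p‖ ≤ 1) → (∀ q, ‖d q‖ ≤ 1) →
      ‖∑ p ∈ P, ∑ q ∈ Q, c p * d q * sg (nr p q)‖ ^ 12 * z ≤
        C₁ * ((A : ℝ) * B) ^ 12)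
    {z H : ℕ} (hH : 1 ≤ H) (hz : 1 ≤ z) {κ : ℝ} (hκ : 0 ≤ κ) (hκ1 : C₁ ≤ κ ^ 12 * z)
    {J : Finset ℕ} {n : ℕ} (e : Fin n ≃ J) :
    HB univ (fun i => CC P z H (e i)) (fun i => XX H (e i)) κ := by
  intro i l hil hi c d hc hd
  show ‖∑ x ∈ CC P z H (e i), ∑ y ∈ CC P z H (e l), c x * d y * sg (nr x y)‖ ≤
    κ * ((XX H (e i) : ℝ) * (XX H (e l) : ℝ))
  have hz0 : (0 : ℝ) < z := by exact_mod_cast hz
  have hk0 : (0 : ℝ) ≤ κ * ((XX H (e i) : ℝ) * (XX H (e l) : ℝ)) := by positivity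
  rcases (CC P z H (e i)).eq_empty_or_nonempty with he | ⟨p₀, hp₀⟩
  · rw [he, Finset.sum_empty, norm_zero]
    exact hk0
  rcases (CC P z H (e l)).eq_empty_or_nonempty with he | ⟨q₀, hq₀⟩
  · rw [he]
    simp only [Finset.sum_empty, Finset.sum_const_zero, norm_zero]
    exact hk0
  have hzi : z ≤ XX H (e i) := by
    have := CC_facts hP hH hp₀
    omega
  have hzl : z ≤ XX H (e l) := by
    have := CC_facts hP hH hq₀
    omega
  have h3 := h1 (CC P z H (e i)) (CC P z H (e l)) (XX H (e i)) (XX H (e l)) z c d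
    (fun p hp => by
      obtain ⟨h3, -, h4⟩ := CC_facts hP hH hp
      exact ⟨(hP p h3).1, (hP p h3).2, h4⟩)
    (fun p hp => by
      obtain ⟨h3, -, h4⟩ := CC_facts hP hH hp
      have h5 := (hP p h3).2
      exact ⟨(hP p h3).1, by omega, h4⟩)
    (CC_disj hP hH e i l hil) hz hzi hzl hc hd
  exact root12 (norm_nonneg _) hκ (Nat.cast_nonneg _) (Nat.cast_nonneg _) hz0 h3 hκ1

theorem per_key {q c V₀ : ℕ} {ε : ℝ} (hε : 0 < ε) (hq : q.Prime ∧ q % 4 = 1) (hPq : ¬ P q)
    (hbox : ∀ (q n : ℕ)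
      (C : Fin n → Finset ℕ) (X : Fin n → ℕ) (κ : ℝ) (S₀ : Finset ℕ), 0 ≤ κ →
      (∀ i, (C i).card ≤ X i) → HB univ C X κ → (q.Prime ∧ q % 4 = 1) → q ∉ S₀ →
      (∀ u ∈ S₀, u.Prime ∧ u % 4 = 1) →
      (∀ i, ∀ p ∈ C i, (p.Prime ∧ p % 4 = 1) ∧ p ∉ S₀ ∧ p ≠ q) →
      (∀ i l, i ≠ l → Disjoint (C i) (C l)) → S₀.card + V₀ + 2 ≤ n →
      |(((Fintype.piFinset C).filter fun p => Nd q S₀ (univ.image p) ∧
          Ev q c (S₀ ∪ univ.image p)).card : ℝ) -
          ac c * (((Fintype.piFinset C).filter fun p => Nd q S₀ (univ.image p)).card : ℝ)| ≤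
        ε * (((Fintype.piFinset C).filter fun p => Nd q S₀ (univ.image p)).card : ℝ) +
        2 ^ ((S₀.card + 1) * n + n * n) * (κ * ∏ j, (X j : ℝ)))
    {X z H k V : ℕ} (hV : V₀ ≤ V) (hH : 1 ≤ H)
    {κ : ℝ} (hκ : 0 ≤ κ) {S₀ J : Finset ℕ} (hk : KP P X z H k V S₀ J)
    (hHB : HB univ (fun i => CC P z H (J.equivFin.symm i)) (fun i => XX H (J.equivFin.symm i)) κ) :
    |(((RR P X z H k V).filter fun S => ky z H S = (S₀, J) ∧
        (Nd q (sm z S) (la z S) ∧ Ev q c S)).card : ℝ) -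
      ac c * (((RR P X z H k V).filter fun S => ky z H S = (S₀, J) ∧
        Nd q (sm z S) (la z S)).card : ℝ)| ≤
    ε * (((RR P X z H k V).filter fun S => ky z H S = (S₀, J)).card : ℝ) +
      (3 ^ (3 * k ^ 2) * κ) * (X / ((∏ p ∈ S₀, p : ℕ) : ℝ)) := by
  have hfew := hk.few
  have hb := hbox q J.card (fun i => CC P z H (J.equivFin.symm i))
    (fun i => XX H (J.equivFin.symm i)) κ S₀ hκ
    (fun i => by
      refine (Finset.card_filter_le _ _).trans ?_
      rw [Nat.card_Icc]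
      omega)
    hHB hq (fun h => hPq (hk.cl q h)) (fun u hu => hP u (hk.cl u hu))
    (fun i p hp => by
      obtain ⟨h3, h3', h4⟩ := CC_facts hP hH hp
      refine ⟨hP p h3, fun h => ?_, ?_⟩
      · have := hk.le p h
        omega
      · rintro rfl
        exact hPq h3)
    (fun i l hil => CC_disj hP hH _ i l hil) (by omega)
  have e1 : ((Fintype.piFinset fun i => CC P z H (J.equivFin.symm i)).filter fun p =>
      Nd q S₀ (univ.image p) ∧ Ev q c (S₀ ∪ univ.image p)).card =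
      ((RR P X z H k V).filter fun S => ky z H S = (S₀, J) ∧
        (Nd q (sm z S) (la z S) ∧ Ev q c S)).card := by
    rw [← key_bij hP hH J.equivFin.symm hk (fun S => Nd q (sm z S) (la z S) ∧ Ev q c S)]
    congr 1
    refine Finset.filter_congr fun p hp => ?_
    rw [Fintype.mem_piFinset] at hp
    rw [sm_fill hP hH hk.le hp, la_fill hP hH hk.le hp]
  have e2 : ((Fintype.piFinset fun i => CC P z H (J.equivFin.symm i)).filter fun p =>
      Nd q S₀ (univ.image p)).card = ((RR P X z H k V).filter fun S => ky z H S = (S₀, J) ∧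
        Nd q (sm z S) (la z S)).card := by
    rw [← key_bij hP hH J.equivFin.symm hk (fun S => Nd q (sm z S) (la z S))]
    congr 1
    refine Finset.filter_congr fun p hp => ?_
    rw [Fintype.mem_piFinset] at hp
    rw [sm_fill hP hH hk.le hp, la_fill hP hH hk.le hp]
  rw [e1, e2] at hb
  refine hb.trans (add_le_add ?_ ?_)
  · have h4 : (((RR P X z H k V).filter fun S => ky z H S = (S₀, J) ∧
        Nd q (sm z S) (la z S)).card : ℝ) ≤
        (((RR P X z H k V).filter fun S => ky z H S = (S₀, J)).card : ℝ) := by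
      have : (RR P X z H k V).filter (fun S => ky z H S = (S₀, J) ∧ Nd q (sm z S) (la z S)) ⊆
          (RR P X z H k V).filter fun S => ky z H S = (S₀, J) := by
        intro S hS
        rw [Finset.mem_filter] at hS ⊢
        exact ⟨hS.1, hS.2.1⟩
      exact_mod_cast Finset.card_le_card this
    gcongr
  · have hcard := hk.card
    have hJK : J.card ≤ k := by omega
    have hSK : S₀.card ≤ k := by omega
    have h5 : (2 : ℝ) ^ ((S₀.card + 1) * J.card + J.card * J.card) ≤ 3 ^ (3 * k ^ 2) := by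
      have hexp : (S₀.card + 1) * J.card + J.card * J.card ≤ 4 * k ^ 2 := by
        have h6 : S₀.card * J.card ≤ k * k := Nat.mul_le_mul hSK hJK
        have h6' : J.card * J.card ≤ k * k := Nat.mul_le_mul hJK hJK
        have h7 : J.card ≤ k * k := by
          refine hJK.trans ?_
          rcases Nat.eq_zero_or_pos k with h | h
          · rw [h]
          · exact Nat.le_mul_of_pos_left k h
        calc (S₀.card + 1) * J.card + J.card * J.card =
            S₀.card * J.card + J.card + J.card * J.card := by ring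
          _ ≤ k * k + k * k + k * k := by omega
          _ ≤ 4 * k ^ 2 := by nlinarith
      calc (2 : ℝ) ^ ((S₀.card + 1) * J.card + J.card * J.card) ≤ 2 ^ (4 * k ^ 2) :=
            pow_le_pow_right₀ (by norm_num) hexp
        _ = (16 : ℝ) ^ (k ^ 2) := by rw [pow_mul]; norm_num
        _ ≤ (27 : ℝ) ^ (k ^ 2) := by
            apply pow_le_pow_left₀ <;> norm_num
        _ = 3 ^ (3 * k ^ 2) := by rw [pow_mul]; norm_num
    have hN0 : (0 : ℝ) < ((∏ p ∈ S₀, p : ℕ) : ℝ) := by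
      exact_mod_cast Finset.prod_pos fun p hp => (hP p (hk.cl p hp)).1.pos
    have hprod : ∏ j, (XX H (J.equivFin.symm j) : ℝ) ≤ X / ((∏ p ∈ S₀, p : ℕ) : ℝ) := by
      have h5 : ∏ j, (XX H (J.equivFin.symm j) : ℝ) = ((∏ k ∈ J, XX H k : ℕ) : ℝ) := by
        rw [← Finset.prod_coe_sort J (fun k => XX H k)]
        push_cast
        exact Equiv.prod_comp J.equivFin.symm (fun j : J => (XX H j : ℝ))
      rw [h5, le_div_iff₀ hN0, mul_comm]
      exact_mod_cast hk.prod
    calc (2 : ℝ) ^ ((S₀.card + 1) * J.card + J.card * J.card) *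
        (κ * ∏ j, (XX H (J.equivFin.symm j) : ℝ)) ≤
        3 ^ (3 * k ^ 2) * (κ * (X / ((∏ p ∈ S₀, p : ℕ) : ℝ))) := by gcongr
      _ = _ := by ring

end

theorem card_sub {α : Type} [DecidableEq α] (A : Finset α) (K : ℕ) :
    (A.powerset.filter fun J => J.card ≤ K).card ≤ (A.card + 1) ^ K := by
  induction K with
  | zero =>
    have : A.powerset.filter (fun J => J.card ≤ 0) ⊆ {∅} := by
      intro J hJ
      rw [Finset.mem_filter, Nat.le_zero, Finset.card_eq_zero] at hJ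
      rw [hJ.2]
      exact Finset.mem_singleton_self _
    exact Finset.card_le_card this
  | succ K ih =>
    set P := A.powerset.filter fun J => J.card ≤ K with hP
    have h1 : A.powerset.filter (fun J => J.card ≤ K + 1) ⊆
        P ∪ (A ×ˢ P).image fun t => insert t.1 t.2 := by
      intro J hJ
      rw [Finset.mem_filter, Finset.mem_powerset] at hJ
      rw [Finset.mem_union]
      rcases J.eq_empty_or_nonempty with h | ⟨x, hx⟩
      · left
        rw [hP, Finset.mem_filter, Finset.mem_powerset, h]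
        exact ⟨Finset.empty_subset _, by simp⟩
      · right
        rw [Finset.mem_image]
        refine ⟨(x, J.erase x), ?_, Finset.insert_erase hx⟩
        rw [Finset.mem_product, hP, Finset.mem_filter, Finset.mem_powerset]
        refine ⟨hJ.1 hx, (Finset.erase_subset _ _).trans hJ.1, ?_⟩
        rw [Finset.card_erase_of_mem hx]
        omega
    refine (Finset.card_le_card h1).trans ((Finset.card_union_le _ _).trans ?_)
    have h2 : ((A ×ˢ P).image fun t => insert t.1 t.2).card ≤ A.card * P.card := by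
      refine Finset.card_image_le.trans ?_
      rw [Finset.card_product]
    rw [pow_succ]
    nlinarith

/-- the sets of primes with product at most `X` -/
noncomputable def TT (X : ℕ) : Finset (Finset ℕ) :=
  (range (X + 1)).powerset.filter fun S => (∀ q ∈ S, q.Prime) ∧ ∏ p ∈ S, p ≤ X

theorem mem_TT {X : ℕ} {S : Finset ℕ} (h : ∀ q ∈ S, q.Prime) (hX : ∏ p ∈ S, p ≤ X) :
    S ∈ TT X := by
  unfold TT
  rw [Finset.mem_filter, Finset.mem_powerset]
  refine ⟨fun q hq => ?_, h, hX⟩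
  rw [Finset.mem_range]
  have h1 : q ∣ ∏ p ∈ S, p := Finset.dvd_prod_of_mem _ hq
  have h2 : 0 < ∏ p ∈ S, p := Finset.prod_pos fun p hp => (h p hp).pos
  have := Nat.le_of_dvd h2 h1
  omega

theorem harm_TT (X : ℕ) : ∑ S ∈ TT X, (1 : ℝ) / ((∏ p ∈ S, p : ℕ) : ℝ) ≤ 1 + Real.log X := by
  have h1 : ∑ S ∈ TT X, (1 : ℝ) / ((∏ p ∈ S, p : ℕ) : ℝ) =
      ∑ n ∈ (TT X).image (fun S => ∏ p ∈ S, p), (1 : ℝ) / (n : ℝ) := by
    rw [Finset.sum_image]
    intro S hS T hT h
    unfold TT at hS hT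
    rw [Finset.mem_coe, Finset.mem_filter] at hS hT
    rw [← Nat.primeFactors_prod hS.2.1, ← Nat.primeFactors_prod hT.2.1]
    exact congrArg _ h
  have h2 : (TT X).image (fun S => ∏ p ∈ S, p) ⊆ Icc 1 X := by
    intro n hn
    rw [Finset.mem_image] at hn
    obtain ⟨S, hS, rfl⟩ := hn
    unfold TT at hS
    rw [Finset.mem_filter] at hS
    rw [Finset.mem_Icc]
    exact ⟨Finset.prod_pos fun p hp => (hS.2.1 p hp).pos, hS.2.2⟩
  rw [h1]
  refine (Finset.sum_le_sum_of_subset_of_nonneg h2 fun _ _ _ => by positivity).trans ?_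
  have h3 := harmonic_le_one_add_log X
  rw [harmonic_eq_sum_Icc] at h3
  push_cast at h3
  refine le_trans (le_of_eq ?_) h3
  refine Finset.sum_congr rfl fun n _ => ?_
  rw [one_div]

/-- **the sum over the boxes** -/
theorem t_KEY (hB1 : S_BIL) (hBOX : S_BOX) : S_KEY := by
  obtain ⟨C₁, hC₁, h1⟩ := hB1
  refine ⟨C₁, hC₁, fun c ε hε => ?_⟩
  obtain ⟨V₀, hV₀⟩ := hBOX c ε hε
  refine ⟨V₀, ?_⟩
  intro P q hP hq hPq X z H k V N κ hV hX hH hz hκ hκz hN
  set T := (RR P X z H k V).image (ky z H) with hT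
  set B : ℝ := 3 ^ (3 * k ^ 2) * κ with hB
  have hB0 : 0 ≤ B := by positivity
  have hfib : ∀ (Q : Finset ℕ → Prop) [DecidablePred Q],
      (((RR P X z H k V).filter fun S => Q S).card : ℝ) =
      ∑ e ∈ T, (((RR P X z H k V).filter fun S => ky z H S = e ∧ Q S).card : ℝ) := by
    intro Q _
    rw [Finset.card_eq_sum_card_fiberwise (f := ky z H) (t := T) (by
      intro S hS
      rw [Finset.mem_coe, Finset.mem_filter] at hS
      exact Finset.mem_coe.2 (Finset.mem_image_of_mem _ hS.1))]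
    push_cast
    refine Finset.sum_congr rfl fun e _ => ?_
    congr 2
    ext S
    simp only [Finset.mem_filter]
    tauto
  have hKP : ∀ e ∈ T, KP P X z H k V e.1 e.2 := by
    intro e he
    rw [hT, Finset.mem_image] at he
    obtain ⟨S, hS, rfl⟩ := he
    obtain ⟨f1, f2, f3⟩ := rr_facts hS
    exact (rr_iff hP hH f1 f2).1 hS
  have hf1 := hfib fun S => Nd q (sm z S) (la z S) ∧ Ev q c S
  have hf2 := hfib fun S => Nd q (sm z S) (la z S)
  have hf3 := hfib fun _ => True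
  simp only [and_true, Finset.filter_true] at hf3
  rw [hf1, hf2, hf3, Finset.mul_sum, ← Finset.sum_sub_distrib]
  refine (Finset.abs_sum_le_sum_abs _ _).trans ?_
  have h3 : ∀ e ∈ T, |(((RR P X z H k V).filter fun S => ky z H S = e ∧
        (Nd q (sm z S) (la z S) ∧ Ev q c S)).card : ℝ) -
      ac c * (((RR P X z H k V).filter fun S => ky z H S = e ∧
        Nd q (sm z S) (la z S)).card : ℝ)| ≤
      ε * (((RR P X z H k V).filter fun S => ky z H S = e).card : ℝ) +
      B * (X / ((∏ p ∈ e.1, p : ℕ) : ℝ)) := by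
    intro e he
    obtain ⟨S₀, J⟩ := e
    have hk' := hKP _ he
    exact per_key hP hε hq hPq hV₀ hV hH hκ hk' (hb_box hP h1 hH hz hκ hκz _)
  refine (Finset.sum_le_sum h3).trans ?_
  rw [Finset.sum_add_distrib, ← Finset.mul_sum]
  refine add_le_add le_rfl ?_
  have hsub : T ⊆ (TT X) ×ˢ ((range N).powerset.filter fun J => J.card ≤ k) := by
    intro e he
    have hk' := hKP e he
    rw [hT, Finset.mem_image] at he
    obtain ⟨S, hS, rfl⟩ := he
    obtain ⟨f1, f2, f3⟩ := rr_facts hS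
    rw [Finset.mem_product, Finset.mem_filter, Finset.mem_powerset]
    refine ⟨mem_TT (fun q hq => (hP q (hk'.cl q hq)).1) ?_, ?_, ?_⟩
    · refine le_trans ?_ f3
      exact Nat.le_of_dvd (Finset.prod_pos fun p hp => (hP p (f1 p hp)).1.pos)
        (Finset.prod_dvd_prod_of_subset _ _ _ (Finset.filter_subset _ _))
    · intro e he
      unfold ky at he
      rw [Finset.mem_image] at he
      obtain ⟨r, hr, rfl⟩ := he
      have hqS := (Finset.mem_filter.1 hr).1
      have hq0 := (hP r (f1 r hqS)).1.pos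
      have hqX : r ≤ X := by
        refine le_trans ?_ f3
        exact Nat.le_of_dvd (Finset.prod_pos fun p hp => (hP p (f1 p hp)).1.pos)
          (Finset.dvd_prod_of_mem _ hqS)
      rw [Finset.mem_range]
      have h3 : ((jj H r : ℕ) : ℝ) < N := by
        refine lt_of_le_of_lt (Nat.floor_le (mul_nonneg (Nat.cast_nonneg _)
          (Real.log_nonneg (by exact_mod_cast hq0)))) ?_
        refine lt_of_le_of_lt ?_ hN
        refine mul_le_mul_of_nonneg_left ?_ (Nat.cast_nonneg _)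
        exact Real.log_le_log (by exact_mod_cast hq0) (by exact_mod_cast hqX)
      exact_mod_cast h3
    · have := hk'.card
      omega
  refine (Finset.sum_le_sum_of_subset_of_nonneg hsub fun _ _ _ => by positivity).trans ?_
  rw [Finset.sum_product]
  simp only [Finset.sum_const, nsmul_eq_mul]
  rw [← Finset.mul_sum]
  have h4 : ((((range N).powerset.filter fun J => J.card ≤ k).card : ℕ) : ℝ) ≤
      (9 * N + 9 : ℝ) ^ k := by
    have h5 := card_sub (range N) k
    rw [Finset.card_range] at h5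
    calc ((((range N).powerset.filter fun J => J.card ≤ k).card : ℕ) : ℝ) ≤
          (((N + 1) ^ k : ℕ) : ℝ) := by exact_mod_cast h5
      _ = (N + 1 : ℝ) ^ k := by push_cast; ring
      _ ≤ _ := by
        apply pow_le_pow_left₀ (by positivity)
        have : (0 : ℝ) ≤ N := Nat.cast_nonneg _
        linarith
  have h5 : ∑ S ∈ TT X, B * (X / ((∏ p ∈ S, p : ℕ) : ℝ)) ≤ B * (X * (1 + Real.log X)) := by
    have h6 : ∀ S ∈ TT X, B * ((X : ℝ) / ((∏ p ∈ S, p : ℕ) : ℝ)) =
        B * X * (1 / ((∏ p ∈ S, p : ℕ) : ℝ)) := by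
      intro S _
      ring
    rw [Finset.sum_congr rfl h6, ← Finset.mul_sum]
    have h7 := mul_le_mul_of_nonneg_left (harm_TT X) (mul_nonneg hB0 (Nat.cast_nonneg X))
    refine h7.trans (le_of_eq ?_)
    ring
  have h6 : 0 ≤ ∑ S ∈ TT X, B * ((X : ℝ) / ((∏ p ∈ S, p : ℕ) : ℝ)) :=
    Finset.sum_nonneg fun _ _ => by positivity
  rw [mul_assoc]
  gcongr

end Pool.Agent.K1H97.NA
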