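import Pool.Agent.K1H97.ST.Cork
import Pool.Agent.R338.EQ.SymRow
import Pool.Agent.Y948.CQ.C2
import Pool.Agent.K1H97.NA.Stm

/-!
# The law of the corank of a random symmetric completion
-/

set_option autoImplicit false

open scoped Classical

namespace Pool.Agent.K1H97.NA

open Function Module Finset
open Pool.Agent.Y759.CX (fr fr_equiv fr_comp)
open Pool.Agent.Y219.CQ (F Sy sp Ns finSy finHom finHom2 pa pa_surj mL bf)
open Pool.Agent.Y703.CQ (nr prs c2)
open Pool.Agent.R338.EQ (prj prj_apply prj_surj prj_zero prj_one J1 mem_J1 z2_cases reidx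
  ext_reidx two_eq double_zero)
open Pool.Agent.K1H97.ST (spc red3)

/-- the random part of the form -/
theorem pa_rows {m : ℕ} (α : prs (J1 m) → F) (w w' : Fin (m + 1) → F) :
    (pa (J1 m) α).1 (prj m w) (prj m w') =
      ∑ j, (∑ k, Pool.Agent.Y703.CQ.ext (reidx m α) j k * (w k + w j)) * w' j := by
  set a : Fin (m + 1) → Fin (m + 1) → F := Pool.Agent.Y703.CQ.ext (reidx m α) with ha
  have hs : ∀ i j, a i j = a j i := by
    intro i j
    rw [ha]
    exact Pool.Agent.Y219.CQ.ext_symm univ _ (mem_univ _) (mem_univ _)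
  have h0 : ∀ i, a i i = 0 := fun i => by
    rw [ha]
    exact Pool.Agent.Y219.CQ.ext_self univ _ i
  have hL : Fin.last m ∉ J1 m := fun h => (mem_J1 _).1 h rfl
  -- the rows of the form
  have hrow : ∀ j : J1 m, ∑ k : J1 m, (prj m w) k * mL (J1 m) α k j =
      ∑ k, a j k * (w k + w j) := by
    intro j
    have h1 : ∀ k : J1 m, (prj m w) k * mL (J1 m) α k j =
        a j k * (w k + w (Fin.last m)) +
          (if k = j then (w j + w (Fin.last m)) * ∑ l, a j l else 0) := by
      intro k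
      unfold mL
      rw [prj_apply, ← ext_reidx α k.2, ← ha, hs]
      have h2 : ∑ l', Pool.Agent.Y703.CQ.ext α k l' = ∑ l', a k l' :=
        sum_congr rfl fun l' _ => by rw [← ext_reidx α k.2]
      rw [h2]
      by_cases h : k = j
      · rw [if_pos h, if_pos h, h]
        ring
      · rw [if_neg h, if_neg h]
        ring
    simp only [h1]
    rw [sum_add_distrib, sum_ite_eq', if_pos (mem_univ _)]
    have h3 : ∑ k : J1 m, a j k * (w k + w (Fin.last m)) =
        ∑ k, a j k * (w k + w (Fin.last m)) := by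
      rw [Finset.sum_coe_sort (J1 m) fun k => a j k * (w k + w (Fin.last m))]
      refine sum_subset (subset_univ _) fun k _ hk => ?_
      have hk' : k = Fin.last m := by
        by_contra h
        exact hk ((mem_J1 k).2 h)
      rw [hk', two_eq, mul_zero]
    rw [h3, mul_sum, ← sum_add_distrib]
    refine sum_congr rfl fun k _ => ?_
    have h4 := two_eq (a j k * w (Fin.last m))
    linear_combination h4
  have hT : ∀ y : J1 m → F, (pa (J1 m) α).1 (prj m w) y =
      ∑ j : J1 m, (∑ k, a j k * (w k + w j)) * y j := by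
    intro y
    show bf (mL (J1 m) α) (prj m w) y = _
    rw [Pool.Agent.Y219.CQ.bf_l]
    exact sum_congr rfl fun j _ => by rw [hrow]
  have hlast : ∑ j : J1 m, ∑ k, a j k * (w k + w j) =
      ∑ k, a (Fin.last m) k * (w k + w (Fin.last m)) := by
    rw [Finset.sum_coe_sort (J1 m) fun j => ∑ k, a j k * (w k + w j)]
    have h1 := double_zero a hs w
    have h2 : ∑ j, ∑ k, a j k * (w k + w j) =
        ∑ k, a (Fin.last m) k * (w k + w (Fin.last m)) +
          ∑ j ∈ J1 m, ∑ k, a j k * (w k + w j) := by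
      unfold J1
      exact (add_sum_erase univ _ (mem_univ _)).symm
    rw [h1] at h2
    have h3 := two_eq (∑ k, a (Fin.last m) k * (w k + w (Fin.last m)))
    linear_combination (-1 : F) * h2 - h3
  rw [hT]
  have h2 : ∀ j : J1 m, (∑ k, a j k * (w k + w j)) * (prj m w') j =
      (∑ k, a j k * (w k + w j)) * w' j +
        (∑ k, a j k * (w k + w j)) * w' (Fin.last m) := fun j => by
    rw [prj_apply, mul_add]
  simp only [h2]
  rw [sum_add_distrib, ← sum_mul, hlast,
    Finset.sum_coe_sort (J1 m) fun j => (∑ k, a j k * (w k + w j)) * w' j]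
  unfold J1
  rw [add_comm]
  exact add_sum_erase univ (fun j => (∑ k, a j k * (w k + w j)) * w' j) (mem_univ _)

section form

variable {U : Type} [Fintype U] {m : ℕ} (A : U → U → F) (B : Fin (m + 1) → U → F) (f : U → F)
  (g : Fin (m + 1) → F)

/-- the fixed part of the form -/
noncomputable def Mf : ((U → F) × (Fin (m + 1) → F)) →ₗ[F] ((U → F) × (Fin (m + 1) → F)) →ₗ[F] F :=
  LinearMap.mk₂ F (fun w w' =>
    ∑ u, (∑ v, A u v * (w.1 v + w.1 u) + ∑ l, B l u * (w.2 l + w.1 u) + f u * w.1 u) * w'.1 u +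
    ∑ k, (∑ u, B k u * (w.1 u + w.2 k) + g k * w.2 k) * w'.2 k)
    (fun x y z => by
      simp only [Prod.fst_add, Prod.snd_add, Pi.add_apply, mul_add, sum_add_distrib, add_mul]
      ring)
    (fun c x z => by
      simp only [Prod.smul_fst, Prod.smul_snd, Pi.smul_apply, smul_eq_mul, mul_add, mul_sum,
        sum_add_distrib, add_mul, sum_mul]
      simp only [mul_left_comm _ c, mul_assoc])
    (fun x y z => by
      simp only [Prod.fst_add, Prod.snd_add, Pi.add_apply, mul_add, sum_add_distrib]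
      ring)
    (fun c x z => by
      simp only [Prod.smul_fst, Prod.smul_snd, Pi.smul_apply, smul_eq_mul, mul_add, mul_sum]
      simp only [mul_left_comm _ c])

lemma Mf_apply (w w' : (U → F) × (Fin (m + 1) → F)) : Mf A B f g w w' =
    ∑ u, (∑ v, A u v * (w.1 v + w.1 u) + ∑ l, B l u * (w.2 l + w.1 u) + f u * w.1 u) * w'.1 u +
    ∑ k, (∑ u, B k u * (w.1 u + w.2 k) + g k * w.2 k) * w'.2 k := rfl

lemma Mf_symm (hA : ∀ u v, A u v = A v u) (w w' : (U → F) × (Fin (m + 1) → F)) :
    Mf A B f g w w' = Mf A B f g w' w := by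
  have key : ∀ w w' : (U → F) × (Fin (m + 1) → F), Mf A B f g w w' =
      (∑ u, ∑ v, A u v * w.1 v * w'.1 u + ∑ u, (∑ v, A u v) * (w.1 u * w'.1 u)) +
      ∑ u, ∑ l, B l u * ((w.2 l + w.1 u) * (w'.2 l + w'.1 u)) +
      (∑ u, f u * (w.1 u * w'.1 u) + ∑ k, g k * (w.2 k * w'.2 k)) := by
    intro w w'
    rw [Mf_apply]
    have e1 : ∑ k, (∑ u, B k u * (w.1 u + w.2 k) + g k * w.2 k) * w'.2 k =
        ∑ u, ∑ l, B l u * ((w.2 l + w.1 u) * w'.2 l) + ∑ k, g k * (w.2 k * w'.2 k) := by
      rw [sum_comm, ← sum_add_distrib]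
      refine sum_congr rfl fun k _ => ?_
      rw [add_mul, sum_mul]
      congr 1
      · exact sum_congr rfl fun u _ => by ring
      · ring
    rw [e1]
    have e2 : ∑ u, (∑ v, A u v * (w.1 v + w.1 u) + ∑ l, B l u * (w.2 l + w.1 u) + f u * w.1 u) *
        w'.1 u = (∑ u, ∑ v, A u v * w.1 v * w'.1 u + ∑ u, (∑ v, A u v) * (w.1 u * w'.1 u)) +
        ∑ u, ∑ l, B l u * ((w.2 l + w.1 u) * w'.1 u) + ∑ u, f u * (w.1 u * w'.1 u) := by
      rw [← sum_add_distrib, ← sum_add_distrib, ← sum_add_distrib]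
      refine sum_congr rfl fun u _ => ?_
      rw [add_mul, add_mul, sum_mul, sum_mul, sum_mul, ← sum_add_distrib]
      congr 1
      · congr 1
        · exact sum_congr rfl fun v _ => by ring
        · exact sum_congr rfl fun l _ => by ring
      · ring
    rw [e2]
    have e3 : ∑ u, ∑ l, B l u * ((w.2 l + w.1 u) * (w'.2 l + w'.1 u)) =
        ∑ u, ∑ l, B l u * ((w.2 l + w.1 u) * w'.2 l) +
          ∑ u, ∑ l, B l u * ((w.2 l + w.1 u) * w'.1 u) := by
      rw [← sum_add_distrib]
      refine sum_congr rfl fun u _ => ?_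
      rw [← sum_add_distrib]
      exact sum_congr rfl fun l _ => by ring
    rw [e3]
    ring
  rw [key, key]
  have e1 : ∑ u, ∑ v, A u v * w.1 v * w'.1 u = ∑ u, ∑ v, A u v * w'.1 v * w.1 u := by
    rw [sum_comm]
    refine sum_congr rfl fun u _ => sum_congr rfl fun v _ => ?_
    rw [hA v u]
    ring
  rw [e1]
  congr 1
  · congr 1
    · congr 1
      exact sum_congr rfl fun u _ => by ring
    · exact sum_congr rfl fun u _ => sum_congr rfl fun l _ => by ring
  · congr 1
    · exact sum_congr rfl fun u _ => by ring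
    · exact sum_congr rfl fun k _ => by ring

/-- the rows of the whole matrix -/
def Rows (a : Fin (m + 1) → Fin (m + 1) → F) (w : (U → F) × (Fin (m + 1) → F)) : Prop :=
  (∀ u, ∑ v, A u v * (w.1 v + w.1 u) + ∑ l, B l u * (w.2 l + w.1 u) + f u * w.1 u = 0) ∧
  ∀ k, ∑ u, B k u * (w.1 u + w.2 k) + ∑ l, a k l * (w.2 l + w.2 k) + g k * w.2 k = 0

/-- the projection -/
noncomputable def pj (U : Type) [Fintype U] (m : ℕ) :
    ((U → F) × (Fin (m + 1) → F)) →ₗ[F] (J1 m → F) :=
  (prj m) ∘ₗ LinearMap.snd F (U → F) (Fin (m + 1) → F)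

lemma pj_surj (U : Type) [Fintype U] (m : ℕ) : Surjective (pj U m) := by
  intro y
  obtain ⟨w, hw⟩ := prj_surj m y
  exact ⟨(0, w), hw⟩

lemma ker_iff (α : prs (J1 m) → F) (w : (U → F) × (Fin (m + 1) → F)) :
    w ∈ LinearMap.ker (Mf A B f g + (pa (J1 m) α).1.compl₁₂ (pj U m) (pj U m)) ↔
      Rows A B f g (Pool.Agent.Y703.CQ.ext (reidx m α)) w := by
  have hval : ∀ w', (Mf A B f g + (pa (J1 m) α).1.compl₁₂ (pj U m) (pj U m)) w w' =
      ∑ u, (∑ v, A u v * (w.1 v + w.1 u) + ∑ l, B l u * (w.2 l + w.1 u) + f u * w.1 u) * w'.1 u +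
      ∑ k, (∑ u, B k u * (w.1 u + w.2 k) +
        ∑ l, Pool.Agent.Y703.CQ.ext (reidx m α) k l * (w.2 l + w.2 k) + g k * w.2 k) *
          w'.2 k := by
    intro w'
    change Mf A B f g w w' + (pa (J1 m) α).1 (prj m w.2) (prj m w'.2) = _
    rw [Mf_apply, pa_rows, add_assoc, ← sum_add_distrib]
    congr 1
    exact sum_congr rfl fun k _ => by ring
  rw [LinearMap.mem_ker, LinearMap.ext_iff]
  constructor
  · intro h
    refine ⟨?_, ?_⟩
    · refine Pool.Agent.Y219.CQ.all_zero _ fun x => ?_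
      have h1 := h (x, 0)
      rw [hval] at h1
      simpa using h1
    · refine Pool.Agent.Y219.CQ.all_zero _ fun y => ?_
      have h1 := h (0, y)
      rw [hval] at h1
      simpa using h1
  · rintro ⟨h1, h2⟩ w'
    rw [hval]
    simp only [h1, h2, zero_mul, sum_const_zero, add_zero]
    rfl

lemma card_rows (α : prs (J1 m) → F) :
    Nat.card {w // Rows A B f g (Pool.Agent.Y703.CQ.ext (reidx m α)) w} =
      2 ^ finrank F (LinearMap.ker (Mf A B f g + (pa (J1 m) α).1.compl₁₂ (pj U m) (pj U m))) := by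
  have e : {w // Rows A B f g (Pool.Agent.Y703.CQ.ext (reidx m α)) w} ≃
      LinearMap.ker (Mf A B f g + (pa (J1 m) α).1.compl₁₂ (pj U m) (pj U m)) :=
    Equiv.subtypeEquivRight fun w => (ker_iff A B f g α w).symm
  rw [Nat.card_congr e, Module.natCard_eq_pow_finrank (K := F), Nat.card_zmod]

/-- **the law** -/
theorem law1 (hA : ∀ u v, A u v = A v u)
    (hN : ∀ (w : U → F) (s : F), (∀ k, ∑ u, w u * B k u + s * g k = 0) → w = 0 ∧ s = 0) :
    ∃ d, m ≤ d + (Fintype.card U + 1) ∧ ∀ c, fr (fun α : prs (univ : Finset (Fin (m + 1))) → F =>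
      Nat.card {w // Rows A B f g (Pool.Agent.Y703.CQ.ext α) w} = 2 ^ c) = spc d c := by
  obtain ⟨d, hd, h⟩ := red3 (Mf A B f g) (Mf_symm A B f g hA) (pj U m) (pj_surj U m)
  have hK : (LinearMap.ker (pj U m) ⊓ LinearMap.ker (Mf A B f g) :
      Submodule F ((U → F) × (Fin (m + 1) → F))) = ⊥ := by
    rw [eq_bot_iff]
    rintro w ⟨hw, hw'⟩
    have hw1 : prj m w.2 = 0 := hw
    have hw2 : Mf A B f g w = 0 := hw'
    have h2 := prj_zero hw1
    obtain ⟨s, hs⟩ : ∃ s, s = w.2 (Fin.last m) := ⟨_, rfl⟩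
    rw [← hs] at h2
    have h2' : ∀ k, w.2 k = s := fun k => by
      rw [h2]
      change s * 1 = s
      rw [mul_one]
    have h3 : ∀ k, ∑ u, (w.1 u + s) * B k u + s * g k = 0 := by
      have h4 : ∀ y : Fin (m + 1) → F,
          ∑ k, (∑ u, B k u * (w.1 u + w.2 k) + g k * w.2 k) * y k = 0 := by
        intro y
        have h5 : Mf A B f g w (0, y) = 0 := by rw [hw2]; rfl
        rw [Mf_apply] at h5
        simpa using h5
      intro k
      have h6 := Pool.Agent.Y219.CQ.all_zero _ h4 k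
      rw [h2' k] at h6
      rw [← h6]
      congr 1
      · exact sum_congr rfl fun u _ => by ring
      · ring
    obtain ⟨h4, h5⟩ := hN (fun u => w.1 u + s) s h3
    rw [Submodule.mem_bot]
    refine Prod.ext ?_ ?_
    · funext u
      have h6 := congrFun h4 u
      rw [h5] at h6
      simpa using h6
    · funext k
      rw [h2' k, h5]
      rfl
  rw [hK, finrank_bot, add_zero] at hd
  rw [hK, finrank_bot] at h
  refine ⟨d, ?_, fun c => ?_⟩
  · have hN1 : finrank F (J1 m → F) = m := by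
      rw [Module.finrank_fintype_fun_eq_card, Fintype.card_coe]
      unfold J1
      rw [card_erase_of_mem (mem_univ _), card_univ, Fintype.card_fin, Nat.add_sub_cancel]
    rw [hN1] at hd
    have h1 := LinearMap.finrank_range_add_finrank_ker (pj U m)
    rw [LinearMap.range_eq_top.2 (pj_surj U m), finrank_top, hN1, Module.finrank_prod,
      Module.finrank_fintype_fun_eq_card, Module.finrank_fintype_fun_eq_card,
      Fintype.card_fin] at h1
    have h2 : finrank F (LinearMap.ker ((pj U m).domRestrict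
        (LinearMap.BilinForm.orthogonal (Mf A B f g) (LinearMap.ker (pj U m))))) ≤
        finrank F (LinearMap.ker (pj U m)) := by
      refine LinearMap.finrank_le_finrank_of_injective (f := LinearMap.codRestrict _
        ((Submodule.subtype _).domRestrict (LinearMap.ker ((pj U m).domRestrict
        (LinearMap.BilinForm.orthogonal (Mf A B f g) (LinearMap.ker (pj U m)))))) ?_) ?_
      · intro x
        exact x.2
      · intro x y hxy
        have h3 := congrArg Subtype.val hxy
        exact Subtype.ext (Subtype.ext h3)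
    omega
  · have hL : ∃ l, l ∉ J1 m := ⟨Fin.last m, fun h => (mem_J1 _).1 h rfl⟩
    have h1 := h c
    rw [zero_add] at h1
    rw [← h1, ← fr_comp (pa (J1 m)) (pa_surj (J1 m) hL), ← fr_equiv (reidx m)]
    congr 1
    funext α
    rw [card_rows]
    exact propext ⟨fun h => Nat.pow_right_injective le_rfl h, fun h => by rw [h]⟩

end form

/-- the limit of the laws -/
theorem spc_lim (c : ℕ) (ε : ℝ) (hε : 0 < ε) :
    ∃ V : ℕ, ∀ d : ℕ, V ≤ d → |spc d c - ac c| ≤ ε := by
  have h1 : Filter.Tendsto (fun n : ℕ => ∏ i ∈ range n, (1 - (1 / 2 : ℝ) ^ (2 * i + 1)))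
      Filter.atTop (nhds c2) := by
    have h := Pool.Agent.Y948.CQ.t_C2.1
    rw [tendsto_iff_norm_sub_tendsto_zero]
    refine squeeze_zero (fun n => norm_nonneg _) (fun n => ?_)
      (tendsto_pow_atTop_nhds_zero_of_lt_one (r := (1 / 4 : ℝ)) (by norm_num) (by norm_num))
    rw [Real.norm_eq_abs]
    exact h n
  have h2 : Filter.Tendsto (fun d : ℕ => sp (d - c)) Filter.atTop (nhds c2) := by
    refine h1.comp (?_ : Filter.Tendsto (fun d : ℕ => (d - c + 1) / 2) Filter.atTop Filter.atTop)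
    rw [Filter.tendsto_atTop_atTop]
    intro b
    refine ⟨2 * b + c, fun a ha => ?_⟩
    omega
  have h3 : Filter.Tendsto (fun d : ℕ => ∏ i ∈ range c, ((1 - (2 : ℝ) ^ i / 2 ^ d) /
      (2 ^ (i + 1) - 1))) Filter.atTop (nhds (∏ i ∈ range c, (1 / (2 ^ (i + 1) - 1) : ℝ))) := by
    refine tendsto_finsetProd _ fun i _ => ?_
    have h4 : Filter.Tendsto (fun d : ℕ => (2 : ℝ) ^ i / 2 ^ d) Filter.atTop (nhds 0) := by
      refine Filter.Tendsto.div_atTop tendsto_const_nhds ?_
      exact tendsto_pow_atTop_atTop_of_one_lt (by norm_num)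
    have h5 := ((tendsto_const_nhds (x := (1 : ℝ))).sub h4).div_const ((2 : ℝ) ^ (i + 1) - 1)
    rwa [sub_zero] at h5
  have h6 := h2.mul h3
  have h7 := (Metric.tendsto_atTop.1 h6) ε hε
  obtain ⟨V, hV⟩ := h7
  refine ⟨V, fun d hd => ?_⟩
  have h8 := (hV d hd).le
  rw [Real.dist_eq] at h8
  exact h8

end Pool.Agent.K1H97.NA
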